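import Pool.Agent.helper738_Eul.Defs

/-!
# Basic facts on graded and Eulerian posets
-/

open Finset

namespace Pool.Agent.Helper738Eul

section graded

variable {P : Type} [PartialOrder P] [BoundedOrder P] {n : ℕ} {ρ : P → ℕ}

lemma IsGraded.strictMono [Finite P] (h : IsGraded n ρ) : StrictMono ρ := by
  classical
  have := Fintype.ofFinite P
  have : LocallyFiniteOrder P := Fintype.toLocallyFiniteOrder
  exact (strictMono_iff_forall_covBy ρ).2 fun a b hab => by have := h.covBy a b hab; omega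

lemma IsGraded.exists_rank [Finite P] (h : IsGraded n ρ) :
    ∀ (k : ℕ) (x y : P), ρ y - ρ x = k → x < y → ∀ r, ρ x < r → r < ρ y →
      ∃ z, x < z ∧ z < y ∧ ρ z = r := by
  classical
  have := Fintype.ofFinite P
  have : LocallyFiniteOrder P := Fintype.toLocallyFiniteOrder
  intro k
  induction k using Nat.strong_induction_on with
  | _ k ih =>
    intro x y hk hxy r h1 h2
    obtain ⟨w, hw, hwy⟩ := exists_covBy_le_of_lt hxy
    have hρ := h.covBy x w hw
    have hwy' : w < y := by
      rcases lt_or_eq_of_le hwy with h' | h'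
      · exact h'
      · subst h'; omega
    by_cases hr : r = ρ w
    · exact ⟨w, hw.lt, hwy', hr.symm⟩
    · obtain ⟨z, hz1, hz2, hz3⟩ := ih (ρ y - ρ w) (by omega) w y rfl hwy' r (by omega) h2
      exact ⟨z, hw.lt.trans hz1, hz2, hz3⟩

lemma IsGraded.exists_between [Finite P] (h : IsGraded n ρ) {x y : P} (hxy : x < y) {r : ℕ}
    (h1 : ρ x < r) (h2 : r < ρ y) : ∃ z, x < z ∧ z < y ∧ ρ z = r :=
  h.exists_rank _ x y rfl hxy r h1 h2

lemma IsGraded.le_top_rank [Finite P] (h : IsGraded n ρ) (x : P) : ρ x ≤ n + 1 := by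
  have := h.strictMono.monotone (le_top : x ≤ ⊤)
  rw [h.top] at this; exact this

lemma IsGraded.eq_bot [Finite P] (h : IsGraded n ρ) {x : P} (hx : ρ x = 0) : x = ⊥ := by
  by_contra hne
  have := h.strictMono (bot_lt_iff_ne_bot.2 hne)
  omega

lemma IsGraded.eq_top [Finite P] (h : IsGraded n ρ) {x : P} (hx : ρ x = n + 1) : x = ⊤ := by
  by_contra hne
  have := h.strictMono (lt_top_iff_ne_top.2 hne)
  rw [h.top] at this
  omega

lemma IsGraded.bot_lt_top [Finite P] (h : IsGraded n ρ) : (⊥ : P) < ⊤ := by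
  rw [bot_lt_iff_ne_bot]
  intro h'
  have h1 := h.top
  rw [h', h.bot] at h1
  omega

end graded

section signed

variable {P : Type} [PartialOrder P] {ρ : P → ℕ}

lemma sum_neg_one_pow_eq {α : Type} (s : Finset α) (f : α → ℕ) :
    ∑ z ∈ s, (-1 : ℤ) ^ (f z) = (#{z ∈ s | Even (f z)} : ℤ) - #{z ∈ s | Odd (f z)} := by
  classical
  rw [← Finset.sum_filter_add_sum_filter_not s (fun z => Even (f z))]
  have h1 : ∑ z ∈ s with Even (f z), (-1 : ℤ) ^ (f z) = #{z ∈ s | Even (f z)} := by
    rw [Finset.sum_congr rfl (g := fun _ => (1 : ℤ))]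
    · simp
    · intro z hz
      rw [Finset.mem_filter] at hz
      exact hz.2.neg_one_pow
  have h2 : ∑ z ∈ s with ¬ Even (f z), (-1 : ℤ) ^ (f z) = -#{z ∈ s | Odd (f z)} := by
    rw [Finset.sum_congr rfl (g := fun _ => (-1 : ℤ))]
    · simp [Nat.not_even_iff_odd]
    · intro z hz
      rw [Finset.mem_filter] at hz
      exact (Nat.not_even_iff_odd.1 hz.2).neg_one_pow
  rw [h1, h2]; ring

open Classical in
lemma isEulerian_iff [Fintype P] :
    IsEulerian ρ ↔ ∀ x y : P, x < y → ∑ z with x ≤ z ∧ z ≤ y, (-1 : ℤ) ^ (ρ z) = 0 := by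
  unfold IsEulerian
  refine forall_congr' fun x => forall_congr' fun y => forall_congr' fun _ => ?_
  rw [sum_neg_one_pow_eq, sub_eq_zero, Nat.cast_inj, Nat.card_eq_fintype_card,
    Nat.card_eq_fintype_card, Fintype.card_subtype, Fintype.card_subtype, Finset.filter_filter,
    Finset.filter_filter]
  have e1 : (univ.filter fun z : P => x ≤ z ∧ z ≤ y ∧ Even (ρ z)) =
      univ.filter fun z : P => (x ≤ z ∧ z ≤ y) ∧ Even (ρ z) := by
    ext z; simp [and_assoc]
  have e2 : (univ.filter fun z : P => x ≤ z ∧ z ≤ y ∧ Odd (ρ z)) =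
      univ.filter fun z : P => (x ≤ z ∧ z ≤ y) ∧ Odd (ρ z) := by
    ext z; simp [and_assoc]
  rw [e1, e2]

open Classical in
lemma sum_Icc_eq [Fintype P] {x y : P} (h : x < y) (f : P → ℤ) :
    ∑ z with x ≤ z ∧ z ≤ y, f z = f x + f y + ∑ z with x < z ∧ z < y, f z := by
  have e : (univ.filter fun z : P => x ≤ z ∧ z ≤ y) =
      insert x (insert y (univ.filter fun z : P => x < z ∧ z < y)) := by
    ext z
    simp only [mem_filter, mem_univ, true_and, mem_insert]
    constructor
    · rintro ⟨h1, h2⟩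
      rcases eq_or_lt_of_le h1 with h3 | h3
      · exact Or.inl h3.symm
      · rcases eq_or_lt_of_le h2 with h4 | h4
        · exact Or.inr (Or.inl h4)
        · exact Or.inr (Or.inr ⟨h3, h4⟩)
    · rintro (rfl | rfl | ⟨h1, h2⟩)
      · exact ⟨le_refl _, h.le⟩
      · exact ⟨h.le, le_refl _⟩
      · exact ⟨h1.le, h2.le⟩
  rw [e, Finset.sum_insert, Finset.sum_insert]
  · ring
  · simp
  · simp only [mem_insert, mem_filter, mem_univ, true_and, lt_self_iff_false, false_and, or_false]
    exact h.ne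

end signed

end Pool.Agent.Helper738Eul
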