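import Pool.Agent.helper738_Eul.Half

/-!
# Two families of half-Eulerian posets
-/

open Finset

namespace Pool.Agent.Helper738Eul

open Classical in
lemma HalfEul.of_two {P : Type} [PartialOrder P] [BoundedOrder P] [Fintype P] {n : ℕ} {ρ : P → ℕ}
    (h : IsGraded n ρ)
    (h2 : ∀ x y : P, x < y → 2 * ∑ z with x < z ∧ z < y, (-1 : ℤ) ^ (ρ z) =
      -((-1) ^ (ρ x) + (-1) ^ (ρ y))) : HalfEul n ρ := by
  refine ⟨h, fun x y hxy => ?_⟩
  have h3 := h2 x y hxy
  rcases Nat.even_or_odd (ρ x) with hx | hx <;> rcases Nat.even_or_odd (ρ y) with hy | hy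
  · rw [if_pos (hx.add hy), pow_succ, hx.neg_one_pow]
    rw [hx.neg_one_pow, hy.neg_one_pow] at h3
    linarith
  · rw [if_neg (Nat.not_even_iff_odd.2 (hx.add_odd hy))]
    rw [hx.neg_one_pow, hy.neg_one_pow] at h3
    linarith
  · rw [if_neg (Nat.not_even_iff_odd.2 (hx.add_even hy))]
    rw [hx.neg_one_pow, hy.neg_one_pow] at h3
    linarith
  · rw [if_pos (hx.add_odd hy), pow_succ, hx.neg_one_pow]
    rw [hx.neg_one_pow, hy.neg_one_pow] at h3
    linarith

/-! ### signed sums over `Fin m` -/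

lemma sum_fin_lt (m : ℕ) (t : ℕ) (ht : t ≤ m) :
    2 * ∑ s : Fin m, (if (s : ℕ) < t then (-1 : ℤ) ^ (s : ℕ) else 0) = 1 - (-1) ^ t := by
  rw [Fin.sum_univ_eq_sum_range (fun s => if s < t then (-1 : ℤ) ^ s else 0) m]
  have : ∑ s ∈ range m, (if s < t then (-1 : ℤ) ^ s else 0) = ∑ s ∈ range t, (-1 : ℤ) ^ s := by
    rw [← Finset.sum_filter]
    congr 1
    ext s
    simp only [mem_filter, mem_range]
    omega
  rw [this]
  clear this ht
  induction t with
  | zero => simp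
  | succ t ih =>
    rw [Finset.sum_range_succ, mul_add, ih, pow_succ]; ring

/-! ### the first family -/

/-- The elements of the first family: `N` disjoint chains with two elements, with `⊥`, `⊤`. -/
inductive C2 (N : ℕ) : Type
  | bot : C2 N
  | lo (i : Fin N) : C2 N
  | hi (i : Fin N) : C2 N
  | top : C2 N

namespace C2

variable {N : ℕ}

/-- The strict order. -/
def ltt : C2 N → C2 N → Prop
  | bot, bot => False
  | bot, _ => True
  | _, bot => False
  | top, _ => False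
  | _, top => True
  | lo i, hi j => i = j
  | _, _ => False

lemma ltt_irrefl (a : C2 N) : ¬ ltt a a := by
  cases a <;> simp [ltt]

lemma ltt_trans {a b c : C2 N} (h1 : ltt a b) (h2 : ltt b c) : ltt a c := by
  cases a <;> cases b <;> cases c <;> simp_all [ltt]

instance : PartialOrder (C2 N) where
  le a b := a = b ∨ ltt a b
  le_refl a := Or.inl rfl
  le_trans a b c h1 h2 := by
    rcases h1 with rfl | h1
    · exact h2
    · rcases h2 with rfl | h2
      · exact Or.inr h1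
      · exact Or.inr (ltt_trans h1 h2)
  le_antisymm a b h1 h2 := by
    rcases h1 with rfl | h1
    · rfl
    · rcases h2 with rfl | h2
      · rfl
      · exact absurd (ltt_trans h1 h2) (ltt_irrefl _)

lemma lt_iff (a b : C2 N) : a < b ↔ ltt a b := by
  rw [lt_iff_le_not_ge]
  constructor
  · rintro ⟨rfl | h1, h2⟩
    · exact absurd (Or.inl rfl) h2
    · exact h1
  · intro h
    refine ⟨Or.inr h, ?_⟩
    rintro (rfl | h2)
    · exact ltt_irrefl _ h
    · exact ltt_irrefl _ (ltt_trans h h2)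

instance : BoundedOrder (C2 N) where
  top := top
  bot := bot
  le_top a := by
    cases a
    · exact Or.inr trivial
    · exact Or.inr trivial
    · exact Or.inr trivial
    · exact Or.inl rfl
  bot_le a := by
    cases a
    · exact Or.inl rfl
    · exact Or.inr trivial
    · exact Or.inr trivial
    · exact Or.inr trivial

/-- The type as a sum. -/
def equiv : C2 N ≃ (Unit ⊕ Fin N ⊕ Fin N ⊕ Unit) where
  toFun
    | bot => Sum.inl ()
    | lo i => Sum.inr (Sum.inl i)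
    | hi i => Sum.inr (Sum.inr (Sum.inl i))
    | top => Sum.inr (Sum.inr (Sum.inr ()))
  invFun
    | Sum.inl () => bot
    | Sum.inr (Sum.inl i) => lo i
    | Sum.inr (Sum.inr (Sum.inl i)) => hi i
    | Sum.inr (Sum.inr (Sum.inr ())) => top
  left_inv a := by cases a <;> rfl
  right_inv a := by rcases a with _ | _ | _ | _ <;> rfl

instance : Fintype (C2 N) := Fintype.ofEquiv _ equiv.symm

lemma sum_eq (g : C2 N → ℤ) : ∑ z, g z = g bot + ∑ i, g (lo i) + ∑ i, g (hi i) + g top := by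
  rw [← Equiv.sum_comp equiv.symm g]
  simp [Fintype.sum_sum_type, equiv]
  ring

/-- The rank. -/
def rk : C2 N → ℕ
  | bot => 0
  | lo _ => 1
  | hi _ => 2
  | top => 3

lemma top_def : (⊤ : C2 N) = top := rfl
lemma bot_def : (⊥ : C2 N) = bot := rfl

lemma graded (hN : 0 < N) : IsGraded 2 (rk (N := N)) := by
  refine ⟨rfl, rfl, ?_⟩
  intro a b hab
  have h1 := (lt_iff _ _).1 hab.lt
  have h2 : ∀ c, ltt a c → ltt c b → False := fun c h3 h4 =>
    hab.2 ((lt_iff _ _).2 h3) ((lt_iff _ _).2 h4)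
  cases a <;> cases b <;> simp only [ltt] at h1 <;> simp only [rk]
  · rename_i i
    exact absurd (h2 (lo i) trivial rfl) id
  · exact absurd (h2 (lo ⟨0, hN⟩) trivial trivial) id
  · rename_i i
    exact absurd (h2 (hi i) rfl trivial) id

lemma half (hN : 0 < N) : HalfEul 2 (rk (N := N)) := by
  classical
  refine HalfEul.of_two (graded hN) ?_
  intro a b hab
  rw [lt_iff] at hab
  simp only [lt_iff]
  rw [Finset.sum_filter, sum_eq]
  cases a <;> cases b <;> simp [ltt, rk] at hab ⊢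

lemma lev_eq' {r : ℕ} (h1 : 1 ≤ r) (h2 : r ≤ 2) : lev (rk (N := N)) r = N := by
  classical
  rw [lev_eq]
  have : (#{x : C2 N | rk x = r} : ℤ) = N := by
    rw [Finset.card_filter]
    push_cast
    rw [sum_eq]
    obtain rfl | rfl : r = 1 ∨ r = 2 := by omega
    · simp [rk]
    · simp [rk]
  exact_mod_cast this

end C2

lemma HR.chains {N : ℕ} (hN : 0 < N) : HR 2 (fun _ => N) :=
  ⟨C2 N, inferInstance, inferInstance, inferInstance, _, C2.half hN,
    fun _ h1 h2 => C2.lev_eq' h1 h2⟩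

/-! ### the second family -/

/-- The elements of the second family. -/
inductive C4 (M m : ℕ) : Type
  | bot : C4 M m
  | x (j : Fin M) : C4 M m
  | a2 (i j : Fin M) : C4 M m
  | a3 (i : Fin M) (t : Fin m) : C4 M m
  | b2 (j : Fin M) (t : Fin m) : C4 M m
  | b3 (j i : Fin M) : C4 M m
  | u (i : Fin M) : C4 M m
  | top : C4 M m

namespace C4

variable {M m : ℕ}

/-- The strict order. -/
def ltt : C4 M m → C4 M m → Prop
  | bot, bot => False
  | bot, _ => True
  | _, bot => False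
  | top, _ => False
  | _, top => True
  | x j, a2 _ j' => j = j'
  | x _, a3 _ _ => True
  | x j, b2 j' _ => j = j'
  | x j, b3 j' _ => j = j'
  | x _, u _ => True
  | a2 i _, a3 i' _ => i = i'
  | a2 i _, u i' => i = i'
  | a3 i t, a3 i' t' => i = i' ∧ (t : ℕ) < t'
  | a3 i _, u i' => i = i'
  | b2 j t, b2 j' t' => j = j' ∧ (t : ℕ) < t'
  | b2 j _, b3 j' _ => j = j'
  | b2 _ _, u _ => True
  | b3 _ i, u i' => i = i'
  | _, _ => False

lemma ltt_irrefl (a : C4 M m) : ¬ ltt a a := by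
  cases a <;> simp [ltt]

lemma ltt_trans {a b c : C4 M m} (h1 : ltt a b) (h2 : ltt b c) : ltt a c := by
  cases a <;> cases b <;> cases c <;>
    first
      | exact trivial
      | exact absurd h1 id
      | exact absurd h2 id
      | exact ⟨h1.1.trans h2.1, h1.2.trans h2.2⟩
      | exact h1.trans h2
      | exact h1.1.trans h2
      | exact h1.trans h2.1

instance : PartialOrder (C4 M m) where
  le a b := a = b ∨ ltt a b
  le_refl a := Or.inl rfl
  le_trans a b c h1 h2 := by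
    rcases h1 with rfl | h1
    · exact h2
    · rcases h2 with rfl | h2
      · exact Or.inr h1
      · exact Or.inr (ltt_trans h1 h2)
  le_antisymm a b h1 h2 := by
    rcases h1 with rfl | h1
    · rfl
    · rcases h2 with rfl | h2
      · rfl
      · exact absurd (ltt_trans h1 h2) (ltt_irrefl _)

lemma lt_iff (a b : C4 M m) : a < b ↔ ltt a b := by
  rw [lt_iff_le_not_ge]
  constructor
  · rintro ⟨rfl | h1, h2⟩
    · exact absurd (Or.inl rfl) h2
    · exact h1
  · intro h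
    refine ⟨Or.inr h, ?_⟩
    rintro (rfl | h2)
    · exact ltt_irrefl _ h
    · exact ltt_irrefl _ (ltt_trans h h2)

instance : BoundedOrder (C4 M m) where
  top := top
  bot := bot
  le_top a := by
    cases a <;> first | exact Or.inl rfl | exact Or.inr trivial
  bot_le a := by
    cases a <;> first | exact Or.inl rfl | exact Or.inr trivial

/-- The type as a sum. -/
def equiv : C4 M m ≃ (Unit ⊕ Fin M ⊕ (Fin M × Fin M) ⊕ (Fin M × Fin m) ⊕ (Fin M × Fin m) ⊕
    (Fin M × Fin M) ⊕ Fin M ⊕ Unit) where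
  toFun
    | bot => Sum.inl ()
    | x i => Sum.inr (Sum.inl i)
    | a2 i j => Sum.inr (Sum.inr (Sum.inl (i, j)))
    | a3 i t => Sum.inr (Sum.inr (Sum.inr (Sum.inl (i, t))))
    | b2 j t => Sum.inr (Sum.inr (Sum.inr (Sum.inr (Sum.inl (j, t)))))
    | b3 j i => Sum.inr (Sum.inr (Sum.inr (Sum.inr (Sum.inr (Sum.inl (j, i))))))
    | u i => Sum.inr (Sum.inr (Sum.inr (Sum.inr (Sum.inr (Sum.inr (Sum.inl i))))))
    | top => Sum.inr (Sum.inr (Sum.inr (Sum.inr (Sum.inr (Sum.inr (Sum.inr ()))))))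
  invFun
    | Sum.inl () => bot
    | Sum.inr (Sum.inl i) => x i
    | Sum.inr (Sum.inr (Sum.inl (i, j))) => a2 i j
    | Sum.inr (Sum.inr (Sum.inr (Sum.inl (i, t)))) => a3 i t
    | Sum.inr (Sum.inr (Sum.inr (Sum.inr (Sum.inl (j, t))))) => b2 j t
    | Sum.inr (Sum.inr (Sum.inr (Sum.inr (Sum.inr (Sum.inl (j, i)))))) => b3 j i
    | Sum.inr (Sum.inr (Sum.inr (Sum.inr (Sum.inr (Sum.inr (Sum.inl i)))))) => u i
    | Sum.inr (Sum.inr (Sum.inr (Sum.inr (Sum.inr (Sum.inr (Sum.inr ())))))) => top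
  left_inv a := by cases a <;> rfl
  right_inv a := by rcases a with _ | _ | _ | _ | _ | _ | _ | _ <;> rfl

instance : Fintype (C4 M m) := Fintype.ofEquiv _ equiv.symm

lemma sum_eq (g : C4 M m → ℤ) : ∑ z, g z = g bot + ∑ i, g (x i) + ∑ i, ∑ j, g (a2 i j) +
    ∑ i, ∑ t, g (a3 i t) + ∑ j, ∑ t, g (b2 j t) + ∑ j, ∑ i, g (b3 j i) + ∑ i, g (u i) + g top := by
  rw [← Equiv.sum_comp equiv.symm g]
  simp only [Fintype.sum_sum_type, Fintype.sum_prod_type, equiv, Equiv.coe_fn_symm_mk,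
    Finset.univ_unique, Finset.sum_singleton]
  ring

/-- The rank. -/
def rk : C4 M m → ℕ
  | bot => 0
  | x _ => 1
  | a2 _ _ => 2
  | a3 _ t => 3 + t
  | b2 _ t => 2 + t
  | b3 _ _ => 2 + m
  | u _ => 3 + m
  | top => 4 + m

lemma sum_all (hm : Odd m) : ∑ t : Fin m, (-1 : ℤ) ^ (t : ℕ) = 1 := by
  have h := sum_fin_lt m m le_rfl
  rw [hm.neg_one_pow] at h
  have : ∑ s : Fin m, (if (s : ℕ) < m then (-1 : ℤ) ^ (s : ℕ) else 0) =
      ∑ t : Fin m, (-1 : ℤ) ^ (t : ℕ) := Finset.sum_congr rfl fun s _ => by simp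
  linarith

lemma sum_lt (t : Fin m) :
    ∑ s : Fin m, (if (s : ℕ) < t then (-1 : ℤ) ^ (s : ℕ) else 0) * 2 = 1 - (-1) ^ (t : ℕ) := by
  rw [← Finset.sum_mul, mul_comm]
  exact sum_fin_lt m t t.2.le

lemma sum_le (t : Fin m) :
    2 * ∑ s : Fin m, (if (s : ℕ) ≤ t then (-1 : ℤ) ^ (s : ℕ) else 0) = 1 + (-1) ^ (t : ℕ) := by
  have h := sum_fin_lt m (t + 1) t.2
  simp only [Nat.lt_succ_iff] at h
  rw [h, pow_succ]; ring

lemma graded (hM : 0 < M) (hm : Odd m) : IsGraded (m + 3) (rk (M := M) (m := m)) := by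
  have hm0 : 0 < m := hm.pos
  refine ⟨rfl, by change 4 + m = m + 3 + 1; omega, ?_⟩
  intro a b hab
  have h1 := (lt_iff _ _).1 hab.lt
  have h2 : ∀ c, ltt a c → ltt c b → False := fun c h3 h4 =>
    hab.2 ((lt_iff _ _).2 h3) ((lt_iff _ _).2 h4)
  cases a <;> cases b <;> simp only [ltt] at h1 <;> simp only [rk]
  case bot.a2 i j => exact (h2 (x j) trivial rfl).elim
  case bot.a3 i t => exact (h2 (x ⟨0, hM⟩) trivial trivial).elim
  case bot.b2 j t => exact (h2 (x j) trivial rfl).elim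
  case bot.b3 j i => exact (h2 (x j) trivial rfl).elim
  case bot.u i => exact (h2 (x ⟨0, hM⟩) trivial trivial).elim
  case bot.top => exact (h2 (x ⟨0, hM⟩) trivial trivial).elim
  case x.a3 j i t => exact (h2 (a2 i j) rfl rfl).elim
  case x.b2 j j' t =>
    by_cases ht : (t : ℕ) = 0
    · omega
    · exact (h2 (b2 j ⟨0, hm0⟩) rfl ⟨h1, Nat.pos_of_ne_zero ht⟩).elim
  case x.b3 j j' i => exact (h2 (b2 j ⟨0, hm0⟩) rfl h1).elim
  case x.u j i => exact (h2 (b2 j ⟨0, hm0⟩) rfl trivial).elim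
  case x.top j => exact (h2 (b2 j ⟨0, hm0⟩) rfl trivial).elim
  case a2.a3 i j i' t =>
    by_cases ht : (t : ℕ) = 0
    · omega
    · exact (h2 (a3 i ⟨0, hm0⟩) rfl ⟨h1, Nat.pos_of_ne_zero ht⟩).elim
  case a2.u i j i' => exact (h2 (a3 i ⟨0, hm0⟩) rfl h1).elim
  case a2.top i j => exact (h2 (a3 i ⟨0, hm0⟩) rfl trivial).elim
  case a3.a3 i t i' t' =>
    by_cases ht : (t' : ℕ) = t + 1
    · omega
    · exact (h2 (a3 i ⟨t + 1, by omega⟩) ⟨rfl, Nat.lt_succ_self _⟩
        ⟨h1.1, by simp only; omega⟩).elim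
  case a3.u i t i' =>
    by_cases ht : (t : ℕ) + 1 = m
    · omega
    · exact (h2 (a3 i ⟨t + 1, by omega⟩) ⟨rfl, Nat.lt_succ_self _⟩ h1).elim
  case a3.top i t => exact (h2 (u i) rfl trivial).elim
  case b2.b2 j t j' t' =>
    by_cases ht : (t' : ℕ) = t + 1
    · omega
    · exact (h2 (b2 j ⟨t + 1, by omega⟩) ⟨rfl, Nat.lt_succ_self _⟩
        ⟨h1.1, by simp only; omega⟩).elim
  case b2.b3 j t j' i =>
    by_cases ht : (t : ℕ) + 1 = m
    · omega
    · exact (h2 (b2 j ⟨t + 1, by omega⟩) ⟨rfl, Nat.lt_succ_self _⟩ h1).elim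
  case b2.u j t i => exact (h2 (b3 j i) rfl rfl).elim
  case b2.top j t => exact (h2 (u ⟨0, hM⟩) trivial trivial).elim
  case b3.u j i i' => omega
  case b3.top j i => exact (h2 (u i) rfl trivial).elim
  case u.top i => omega

lemma sum_key (c : Fin M → Fin m → Prop) [∀ a b, Decidable (c a b)] (i0 : Fin M)
    (p : Fin m → Prop) [DecidablePred p] (f : Fin m → ℤ) (h : ∀ a t, c a t ↔ a = i0 ∧ p t) :
    ∑ a, ∑ t, (if c a t then f t else 0) = ∑ t, if p t then f t else 0 := by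
  rw [Finset.sum_comm]
  refine Finset.sum_congr rfl fun t _ => ?_
  simp only [h, ite_and]
  simp

lemma sum_SL (t : Fin m) : 2 * ∑ s : Fin m, (if s < t then (-1 : ℤ) ^ (s : ℕ) else 0) =
    1 - (-1) ^ (t : ℕ) := by
  simp only [Fin.lt_def]
  exact sum_fin_lt m t t.2.le

lemma sum_SG (hm : Odd m) (t : Fin m) :
    2 * ∑ s : Fin m, (if t < s then (-1 : ℤ) ^ (s : ℕ) else 0) = 1 - (-1) ^ (t : ℕ) := by
  have h1 := sum_all hm
  have h2 := sum_le t
  have h3 : ∑ s : Fin m, (if t < s then (-1 : ℤ) ^ (s : ℕ) else 0) =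
      ∑ s : Fin m, ((-1 : ℤ) ^ (s : ℕ) - (if (s : ℕ) ≤ t then (-1 : ℤ) ^ (s : ℕ) else 0)) := by
    refine Finset.sum_congr rfl fun s _ => ?_
    by_cases h : t < s
    · rw [if_pos h, if_neg (by rw [Fin.lt_def] at h; omega)]; ring
    · rw [if_neg h, if_pos (by rw [Fin.lt_def] at h; omega)]; ring
  rw [h3, Finset.sum_sub_distrib, h1]
  linarith

lemma sum_SB (t t' : Fin m) (h : t < t') :
    2 * ∑ s : Fin m, (if t < s ∧ s < t' then (-1 : ℤ) ^ (s : ℕ) else 0) =
      -((-1) ^ (t' : ℕ) + (-1) ^ (t : ℕ)) := by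
  have h1 := sum_SL t'
  have h2 := sum_le t
  have h3 : ∑ s : Fin m, (if t < s ∧ s < t' then (-1 : ℤ) ^ (s : ℕ) else 0) =
      ∑ s : Fin m, ((if s < t' then (-1 : ℤ) ^ (s : ℕ) else 0) -
        (if (s : ℕ) ≤ t then (-1 : ℤ) ^ (s : ℕ) else 0)) := by
    refine Finset.sum_congr rfl fun s _ => ?_
    rw [Fin.lt_def] at h
    simp only [Fin.lt_def]
    split_ifs <;> first | (exfalso; omega) | ring
  rw [h3, Finset.sum_sub_distrib]
  linarith

lemma half (hM : 0 < M) (hm : Odd m) : HalfEul (m + 3) (rk (M := M) (m := m)) := by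
  classical
  refine HalfEul.of_two (graded hM hm) ?_
  intro a b hab
  rw [lt_iff] at hab
  simp only [lt_iff]
  rw [Finset.sum_filter, sum_eq]
  have hS := sum_all hm
  have hS3 : ∑ t : Fin m, (-1 : ℤ) ^ (3 + (t : ℕ)) = -1 := by
    simp only [pow_add, ← Finset.mul_sum, hS]; norm_num
  have hS2 : ∑ t : Fin m, (-1 : ℤ) ^ (2 + (t : ℕ)) = 1 := by
    simp only [pow_add, ← Finset.mul_sum, hS]; norm_num
  have hm2 : (-1 : ℤ) ^ (2 + m) = -1 := by rw [pow_add, hm.neg_one_pow]; norm_num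
  have hm3 : (-1 : ℤ) ^ (3 + m) = 1 := by rw [pow_add, hm.neg_one_pow]; norm_num
  have hm4 : (-1 : ℤ) ^ (4 + m) = -1 := by rw [pow_add, hm.neg_one_pow]; norm_num
  have hc : ∀ j i : Fin M, ∑ x : Fin M, ((#{x_1 : Fin M | j = x_1 ∧ x = i} : ℕ) : ℤ) = 1 := by
    intro j i
    simp_rw [Finset.card_filter]
    push_cast
    simp [ite_and]
  have e3 : ∀ (p : Fin m → Prop) [DecidablePred p],
      ∑ t : Fin m, (if p t then (-1 : ℤ) ^ (3 + (t : ℕ)) else 0) =
        - ∑ t : Fin m, (if p t then (-1 : ℤ) ^ (t : ℕ) else 0) := by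
    intro p _
    rw [← Finset.sum_neg_distrib]
    refine Finset.sum_congr rfl fun t _ => ?_
    split_ifs
    · rw [pow_add]; norm_num
    · simp
  have e2 : ∀ (p : Fin m → Prop) [DecidablePred p],
      ∑ t : Fin m, (if p t then (-1 : ℤ) ^ (2 + (t : ℕ)) else 0) =
        ∑ t : Fin m, (if p t then (-1 : ℤ) ^ (t : ℕ) else 0) := by
    intro p _
    refine Finset.sum_congr rfl fun t _ => ?_
    split_ifs
    · rw [pow_add]; norm_num
    · simp
  have p3 : ∀ k : ℕ, (-1 : ℤ) ^ (3 + k) = -(-1) ^ k := fun k => by rw [pow_add]; norm_num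
  have p2 : ∀ k : ℕ, (-1 : ℤ) ^ (2 + k) = (-1) ^ k := fun k => by rw [pow_add]; norm_num
  cases a <;> cases b <;> simp [ltt, rk] at hab ⊢
  case bot.a3 i t =>
    rw [sum_key _ i (fun s => s < t) _ (fun a s => Iff.rfl), e3, p3]
    have := sum_SL t
    linarith
  case bot.b2 j t =>
    rw [sum_key _ j (fun s => s < t) _ (fun a s => Iff.rfl), e2, p2]
    have := sum_SL t
    linarith
  case bot.b3 j i => rw [hS2, hm2]; norm_num
  case bot.u i => rw [hS2, hS3, hm2, hm3]; ring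
  case bot.top => rw [hS2, hS3, hm2, hm3, hm4]; ring
  case x.a3 j i t =>
    rw [hc, sum_key _ i (fun s => s < t) _ (fun a s => Iff.rfl), e3, p3]
    have := sum_SL t
    linarith
  case x.b2 j j' t =>
    subst hab
    rw [sum_key _ j (fun s => s < t) _ (fun a s => by
      constructor
      · rintro ⟨h1, -, h2⟩; exact ⟨h1.symm, h2⟩
      · rintro ⟨h1, h2⟩; exact ⟨h1.symm, h1, h2⟩), e2, p2]
    have := sum_SL t
    linarith
  case x.b3 j j' i =>
    subst hab
    rw [hS2, hm2]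
    have : ∀ x : Fin M, (j = x ∧ x = j) ↔ x = j := fun x => ⟨fun h => h.2, fun h => ⟨h.symm, h⟩⟩
    simp [this]
  case x.u j i =>
    rw [hc, hS2, hS3, hm2, hm3]
    have : ∑ x : Fin M, ∑ x_1 : Fin M, (if j = x ∧ x_1 = i then (-1 : ℤ) else 0) = -1 := by
      simp [ite_and]
    rw [this]; norm_num
  case x.top j => rw [hS2, hS3, hm2, hm3, hm4]; ring
  case a2.a3 i j i' t =>
    subst hab
    rw [sum_key _ i (fun s => s < t) _ (fun a s => by
      constructor
      · rintro ⟨h1, -, h2⟩; exact ⟨h1.symm, h2⟩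
      · rintro ⟨h1, h2⟩; exact ⟨h1.symm, h1, h2⟩), e3, p3]
    have := sum_SL t
    linarith
  case a2.u i j i' =>
    subst hab
    rw [hS3, hm3]
    have : ∀ x : Fin M, (i = x ∧ x = i) ↔ x = i := fun x => ⟨fun h => h.2, fun h => ⟨h.symm, h⟩⟩
    simp [this]
  case a2.top i j => rw [hS3, hm3, hm4]; norm_num
  case a3.a3 i t i' t' =>
    obtain ⟨rfl, hab⟩ := hab
    rw [sum_key _ i (fun s => t < s ∧ s < t') _ (fun a s => by
      constructor
      · rintro ⟨⟨h1, h3⟩, -, h2⟩; exact ⟨h1.symm, h3, h2⟩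
      · rintro ⟨h1, h3, h2⟩; exact ⟨⟨h1.symm, h3⟩, h1, h2⟩), e3, p3, p3]
    have := sum_SB t t' hab
    linarith
  case a3.u i t i' =>
    subst hab
    rw [sum_key _ i (fun s => t < s) _ (fun a s => by
      constructor
      · rintro ⟨⟨h1, h3⟩, -⟩; exact ⟨h1.symm, h3⟩
      · rintro ⟨h1, h3⟩; exact ⟨⟨h1.symm, h3⟩, h1⟩), e3, p3 (t : ℕ), hm3]
    have := sum_SG hm t
    linarith
  case a3.top i t =>
    rw [sum_key _ i (fun s => t < s) _ (fun a s => by
      constructor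
      · rintro ⟨h1, h3⟩; exact ⟨h1.symm, h3⟩
      · rintro ⟨h1, h3⟩; exact ⟨h1.symm, h3⟩), e3, p3 (t : ℕ), hm3, hm4]
    have := sum_SG hm t
    linarith
  case b2.b2 j t j' t' =>
    obtain ⟨rfl, hab⟩ := hab
    rw [sum_key _ j (fun s => t < s ∧ s < t') _ (fun a s => by
      constructor
      · rintro ⟨⟨h1, h3⟩, -, h2⟩; exact ⟨h1.symm, h3, h2⟩
      · rintro ⟨h1, h3, h2⟩; exact ⟨⟨h1.symm, h3⟩, h1, h2⟩), e2, p2, p2]
    have := sum_SB t t' hab
    linarith
  case b2.b3 j t j' i =>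
    subst hab
    rw [sum_key _ j (fun s => t < s) _ (fun a s => by
      constructor
      · rintro ⟨⟨h1, h3⟩, -⟩; exact ⟨h1.symm, h3⟩
      · rintro ⟨h1, h3⟩; exact ⟨⟨h1.symm, h3⟩, h1⟩), e2, p2 (t : ℕ), hm2]
    have := sum_SG hm t
    linarith
  case b2.u j t i =>
    rw [sum_key _ j (fun s => t < s) _ (fun a s => by
      constructor
      · rintro ⟨h1, h3⟩; exact ⟨h1.symm, h3⟩
      · rintro ⟨h1, h3⟩; exact ⟨h1.symm, h3⟩), e2, p2 (t : ℕ), hm2, hm3]
    have h1 := sum_SG hm t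
    have : ∑ x : Fin M, ∑ x_1 : Fin M, (if j = x ∧ x_1 = i then (-1 : ℤ) else 0) = -1 := by
      simp [ite_and]
    rw [this]
    linarith
  case b2.top j t =>
    rw [sum_key _ j (fun s => t < s) _ (fun a s => by
      constructor
      · rintro ⟨h1, h3⟩; exact ⟨h1.symm, h3⟩
      · rintro ⟨h1, h3⟩; exact ⟨h1.symm, h3⟩), e2, p2 (t : ℕ), hm2, hm3, hm4]
    have h1 := sum_SG hm t
    linarith
  case b3.u j i i' => rw [hm2, hm3]; norm_num
  case b3.top j i => rw [hm2, hm3, hm4]; norm_num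
  case u.top i => rw [hm3, hm4]; norm_num

/-- The level sizes of the second family. -/
def levs (M m : ℕ) (r : ℕ) : ℕ :=
  (if r = 1 then M else 0) + (if r = 2 then M * M else 0) +
    (if 3 ≤ r ∧ r < 3 + m then M else 0) + (if 2 ≤ r ∧ r < 2 + m then M else 0) +
    (if r = 2 + m then M * M else 0) + (if r = 3 + m then M else 0)

lemma sum_ind (c r : ℕ) : ∑ t : Fin m, (if c + (t : ℕ) = r then (1 : ℤ) else 0) =
    if c ≤ r ∧ r < c + m then 1 else 0 := by
  split_ifs with h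
  · rw [Finset.sum_eq_single (⟨r - c, by omega⟩ : Fin m)]
    · rw [if_pos]; simp only; omega
    · intro t _ ht
      rw [if_neg]
      intro h'
      apply ht
      ext
      simp only
      omega
    · simp
  · refine Finset.sum_eq_zero fun t _ => ?_
    have := t.2
    rw [if_neg]
    omega

/-- The indicator of rank `r`, by cases. -/
def ind (r : ℕ) : C4 M m → ℤ
  | bot => if 0 = r then 1 else 0
  | x _ => if 1 = r then 1 else 0
  | a2 _ _ => if 2 = r then 1 else 0
  | a3 _ t => if 3 + (t : ℕ) = r then 1 else 0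
  | b2 _ t => if 2 + (t : ℕ) = r then 1 else 0
  | b3 _ _ => if 2 + m = r then 1 else 0
  | u _ => if 3 + m = r then 1 else 0
  | top => if 4 + m = r then 1 else 0

lemma lev_eq' {r : ℕ} (h1 : 1 ≤ r) (h2 : r ≤ m + 3) :
    lev (rk (M := M) (m := m)) r = levs M m r := by
  classical
  rw [lev_eq]
  have : (#{x : C4 M m | rk x = r} : ℤ) = levs M m r := by
    rw [Finset.card_filter]
    push_cast
    have hF : ∀ z : C4 M m, (if rk z = r then (1 : ℤ) else 0) = ind r z := by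
      intro z
      cases z <;> rfl
    rw [Finset.sum_congr rfl (fun z _ => hF z), sum_eq]
    simp only [ind, sum_ind]
    have e0 : ¬ (0 = r) := by omega
    have e4 : ¬ (4 + m = r) := by omega
    rw [if_neg e0, if_neg e4]
    simp only [Finset.sum_const, Finset.card_univ, Fintype.card_fin, nsmul_eq_mul, levs]
    push_cast
    simp only [mul_ite, mul_one, mul_zero]
    simp only [eq_comm (b := r)]
    ring
  exact_mod_cast this

end C4

lemma HR.core {M m : ℕ} (hM : 0 < M) (hm : Odd m) : HR (m + 3) (C4.levs M m) :=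
  ⟨C4 M m, inferInstance, inferInstance, inferInstance, _, C4.half hM hm,
    fun _ h1 h2 => C4.lev_eq' h1 h2⟩

end Pool.Agent.Helper738Eul
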