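import Mathlib

/-!
# Eulerian posets and their flag f-vectors: definitions

All posets are finite, with least element `⊥` and greatest element `⊤`.
-/

namespace Pool.Agent.Helper738Eul

/-- `ρ` is a rank function making the finite bounded poset `P` graded of rank `n + 1`. -/
structure IsGraded {P : Type} [PartialOrder P] [BoundedOrder P] (n : ℕ) (ρ : P → ℕ) : Prop where
  bot : ρ ⊥ = 0
  top : ρ ⊤ = n + 1
  covBy : ∀ x y : P, x ⋖ y → ρ y = ρ x + 1

/-- Every interval `[x, y]` with `x < y` contains equally many elements of even rank and of odd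
rank. -/
def IsEulerian {P : Type} [PartialOrder P] (ρ : P → ℕ) : Prop :=
  ∀ x y : P, x < y →
    Nat.card {z : P // x ≤ z ∧ z ≤ y ∧ Even (ρ z)} =
      Nat.card {z : P // x ≤ z ∧ z ≤ y ∧ Odd (ρ z)}

/-- The flag number `f_S`: the number of chains in `P` without `⊥` and `⊤` whose set of ranks is
`S`. -/
noncomputable def flagNumber {P : Type} [PartialOrder P] [BoundedOrder P] (ρ : P → ℕ)
    (S : Finset ℕ) : ℕ :=
  Nat.card {C : Finset P // IsChain (· < ·) (C : Set P) ∧ ⊥ ∉ C ∧ ⊤ ∉ C ∧ C.image ρ = S}

/-- The set `F_n` of flag f-vectors of Eulerian posets of rank `n + 1`, as vectors indexed by the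
subsets of `Fin n`; the index `i : Fin n` stands for the rank `i + 1`. -/
def FlagVectors (n : ℕ) : Set (Finset (Fin n) → ℤ) :=
  {v | ∃ (P : Type) (_ : PartialOrder P) (_ : BoundedOrder P) (_ : Finite P) (ρ : P → ℕ),
    IsGraded n ρ ∧ IsEulerian ρ ∧
      ∀ S : Finset (Fin n), v S = flagNumber ρ (S.image (fun i : Fin n => (i : ℕ) + 1))}

/-- The set of f-vectors of Eulerian posets of rank `n + 1`: the entries with a one-element index
set of the flag f-vectors, as real vectors. -/
def FVectors (n : ℕ) : Set (Fin n → ℝ) :=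
  {x | ∃ v ∈ FlagVectors n, ∀ i, x i = (v {i} : ℝ)}

end Pool.Agent.Helper738Eul
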