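import Pool.Agent.helper738_Eul.Valid

/-!
# Half-Eulerian posets and doubling

A graded poset is called half-Eulerian here when doubling every element other than `⊥` and `⊤`
gives an Eulerian poset.
-/

open Finset

namespace Pool.Agent.Helper738Eul

open Classical in
/-- Half-Eulerian posets, by signed counts in open intervals. -/
structure HalfEul {P : Type} [PartialOrder P] [BoundedOrder P] [Fintype P] (n : ℕ) (ρ : P → ℕ) :
    Prop where
  graded : IsGraded n ρ
  sum_eq : ∀ x y : P, x < y → ∑ z with x < z ∧ z < y, (-1 : ℤ) ^ (ρ z) =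
    if Even (ρ x + ρ y) then (-1) ^ (ρ x + 1) else 0

/-- The level sizes `f` are those of a half-Eulerian poset of rank `n + 1`. -/
def HR (n : ℕ) (f : ℕ → ℕ) : Prop :=
  ∃ (P : Type) (_ : PartialOrder P) (_ : BoundedOrder P) (_ : Fintype P) (ρ : P → ℕ),
    HalfEul n ρ ∧ ∀ r, 1 ≤ r → r ≤ n → lev ρ r = f r

section double

variable (P : Type) [PartialOrder P] [BoundedOrder P]

/-- The double of a poset: every element other than `⊥`, `⊤` is replaced by two incomparable
copies. -/
def Dbl : Type := {p : P × Bool // (p.1 = ⊥ ∨ p.1 = ⊤) → p.2 = false}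

variable {P}

instance : PartialOrder (Dbl P) where
  le p q := p = q ∨ p.1.1 < q.1.1
  le_refl p := Or.inl rfl
  le_trans p q r h1 h2 := by
    rcases h1 with rfl | h1
    · exact h2
    · rcases h2 with rfl | h2
      · exact Or.inr h1
      · exact Or.inr (h1.trans h2)
  le_antisymm p q h1 h2 := by
    rcases h1 with rfl | h1
    · rfl
    · rcases h2 with rfl | h2
      · rfl
      · exact absurd (h1.trans h2) (lt_irrefl _)

lemma Dbl.le_def (p q : Dbl P) : p ≤ q ↔ p = q ∨ p.1.1 < q.1.1 := Iff.rfl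

lemma Dbl.lt_iff (p q : Dbl P) : p < q ↔ p.1.1 < q.1.1 := by
  rw [lt_iff_le_not_ge, Dbl.le_def, Dbl.le_def]
  constructor
  · rintro ⟨rfl | h1, h2⟩
    · exact absurd (Or.inl rfl) h2
    · exact h1
  · intro h
    refine ⟨Or.inr h, ?_⟩
    rintro (rfl | h2)
    · exact lt_irrefl _ h
    · exact lt_irrefl _ (h.trans h2)

instance : BoundedOrder (Dbl P) where
  top := ⟨(⊤, false), fun _ => rfl⟩
  bot := ⟨(⊥, false), fun _ => rfl⟩
  le_top p := by
    rcases eq_or_lt_of_le (le_top : p.1.1 ≤ ⊤) with h | h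
    · left
      apply Subtype.ext
      exact Prod.ext h (p.2 (Or.inr h))
    · exact Or.inr h
  bot_le p := by
    rcases eq_or_lt_of_le (bot_le : ⊥ ≤ p.1.1) with h | h
    · left
      apply Subtype.ext
      exact Prod.ext h (p.2 (Or.inl h.symm)).symm
    · exact Or.inr h

lemma Dbl.top_fst : (⊤ : Dbl P).1.1 = ⊤ := rfl
lemma Dbl.bot_fst : (⊥ : Dbl P).1.1 = ⊥ := rfl

noncomputable instance [Fintype P] : Fintype (Dbl P) := by
  classical
  unfold Dbl
  infer_instance

open Classical in
lemma Dbl.sum_open [Fintype P] (x y : Dbl P) (g : P → ℤ) :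
    ∑ z : Dbl P with x < z ∧ z < y, g z.1.1 = 2 * ∑ w with x.1.1 < w ∧ w < y.1.1, g w := by
  have h : ∑ z : Dbl P with x < z ∧ z < y, g z.1.1 =
      ∑ p ∈ (univ.filter fun w => x.1.1 < w ∧ w < y.1.1) ×ˢ (univ : Finset Bool), g p.1 := by
    refine Finset.sum_bij (fun z _ => z.1) ?_ ?_ ?_ ?_
    · intro z hz
      simp only [mem_filter, mem_univ, true_and, Dbl.lt_iff, mem_product, and_true] at hz ⊢
      exact hz
    · intro a _ b _ hab
      exact Subtype.ext hab
    · intro p hp
      simp only [mem_filter, mem_univ, true_and, mem_product, and_true] at hp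
      refine ⟨⟨p, ?_⟩, ?_, rfl⟩
      · rintro (h | h)
        · rw [h] at hp; exact absurd hp.1 not_lt_bot
        · rw [h] at hp; exact absurd hp.2 not_top_lt
      · simp only [mem_filter, mem_univ, true_and, Dbl.lt_iff]
        exact hp
    · intro z _; rfl
  rw [h, Finset.sum_product, Finset.mul_sum]
  refine Finset.sum_congr rfl fun w _ => ?_
  simp only [sum_const, card_univ, Fintype.card_bool, nsmul_eq_mul]
  norm_num

open Classical in
lemma HalfEul.dbl_graded [Fintype P] {n : ℕ} {ρ : P → ℕ} (h : HalfEul n ρ) :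
    IsGraded (P := Dbl P) n (fun z => ρ z.1.1) := by
  refine ⟨h.graded.bot, h.graded.top, ?_⟩
  intro x y hxy
  apply h.graded.covBy
  refine ⟨(Dbl.lt_iff _ _).1 hxy.lt, ?_⟩
  intro w hw1 hw2
  have hb : w ≠ ⊥ := fun h' => by rw [h'] at hw1; exact not_lt_bot hw1
  have ht : w ≠ ⊤ := fun h' => by rw [h'] at hw2; exact not_top_lt hw2
  refine hxy.2 (c := ⟨(w, false), fun _ => rfl⟩) ?_ ?_
  · rw [Dbl.lt_iff]; exact hw1
  · rw [Dbl.lt_iff]; exact hw2

open Classical in
lemma HalfEul.dbl_eulerian [Fintype P] {n : ℕ} {ρ : P → ℕ} (h : HalfEul n ρ) :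
    IsEulerian (P := Dbl P) (fun z => ρ z.1.1) := by
  rw [isEulerian_iff]
  intro x y hxy
  rw [sum_Icc_eq hxy]
  have h1 := Dbl.sum_open x y (fun w => (-1 : ℤ) ^ (ρ w))
  rw [h1, h.sum_eq _ _ ((Dbl.lt_iff _ _).1 hxy)]
  split_ifs with he
  · have : (-1 : ℤ) ^ (ρ y.1.1) = (-1) ^ (ρ x.1.1) := by
      rcases Nat.even_or_odd (ρ x.1.1) with h2 | h2
      · rw [h2.neg_one_pow, ((Nat.even_add.1 he).1 h2).neg_one_pow]
      · rw [h2.neg_one_pow, Odd.neg_one_pow]
        rw [← Nat.not_even_iff_odd] at h2 ⊢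
        exact fun h3 => h2 ((Nat.even_add.1 he).2 h3)
    rw [this, pow_succ]; ring
  · have : (-1 : ℤ) ^ (ρ y.1.1) = -(-1) ^ (ρ x.1.1) := by
      rcases Nat.even_or_odd (ρ x.1.1) with h2 | h2
      · rw [h2.neg_one_pow, Odd.neg_one_pow]
        rw [← Nat.not_even_iff_odd]
        intro h3
        exact he (Nat.even_add.2 ⟨fun _ => h3, fun _ => h2⟩)
      · rw [h2.neg_one_pow, Even.neg_one_pow]
        · norm_num
        · by_contra h3
          apply he
          rw [Nat.even_add]
          rw [← Nat.not_even_iff_odd] at h2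
          exact ⟨fun h4 => absurd h4 h2, fun h4 => absurd h4 h3⟩
    rw [this]; ring

lemma Dbl.lev_eq [Fintype P] {n : ℕ} {ρ : P → ℕ} (h : IsGraded n ρ) {r : ℕ} (h1 : 1 ≤ r)
    (h2 : r ≤ n) : lev (P := Dbl P) (fun z => ρ z.1.1) r = 2 * lev ρ r := by
  unfold lev
  have : Nat.card {x : Dbl P // ρ x.1.1 = r} = Nat.card ({x : P // ρ x = r} × Bool) := by
    refine Nat.card_congr ⟨fun x => (⟨x.1.1.1, x.2⟩, x.1.1.2),
      fun p => ⟨⟨(p.1.1, p.2), ?_⟩, p.1.2⟩, fun x => rfl, fun p => rfl⟩
    have h3 := p.1.2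
    rintro (h4 | h4)
    · simp only at h4
      rw [h4, h.bot] at h3; omega
    · simp only at h4
      rw [h4, h.top] at h3; omega
  rw [this, Nat.card_prod]
  simp [mul_comm]

end double

/-- Doubling a half-Eulerian poset gives a flag vector. -/
lemma HR.exists_flag {n : ℕ} {f : ℕ → ℕ} (h : HR n f) :
    ∃ v ∈ FlagVectors n, ∀ i : Fin n, v {i} = 2 * f (i + 1) := by
  obtain ⟨P, _, _, _, ρ, h1, h2⟩ := h
  refine ⟨fun S => flagNumber (P := Dbl P) (fun z => ρ z.1.1)
    (S.image (fun i : Fin n => (i : ℕ) + 1)), ⟨Dbl P, inferInstance, inferInstance, inferInstance,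
      _, h1.dbl_graded, h1.dbl_eulerian, fun S => rfl⟩, ?_⟩
  intro i
  have := i.2
  simp only [Finset.image_singleton]
  rw [flagNumber_singleton h1.dbl_graded (by omega) (by omega),
    Dbl.lev_eq h1.graded (by omega) (by omega), h2 _ (by omega) (by omega)]
  push_cast
  ring

section dual

variable {P : Type} [PartialOrder P] [BoundedOrder P] {n : ℕ} {ρ : P → ℕ}

lemma HalfEul.dual [Fintype P] (h : HalfEul n ρ) :
    HalfEul (P := Pᵒᵈ) n (fun x => n + 1 - ρ (OrderDual.ofDual x)) := by
  classical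
  refine ⟨h.graded.dual, ?_⟩
  intro x y hxy
  have h1 := h.sum_eq (OrderDual.ofDual y) (OrderDual.ofDual x) hxy
  have h2 : ∑ z : Pᵒᵈ with x < z ∧ z < y, (-1 : ℤ) ^ (n + 1 - ρ (OrderDual.ofDual z)) =
      ∑ z : P with OrderDual.ofDual y < z ∧ z < OrderDual.ofDual x,
        (-1 : ℤ) ^ (n + 1) * (-1 : ℤ) ^ (ρ z) := by
    refine Finset.sum_bij (fun z _ => OrderDual.ofDual z) ?_ ?_ ?_ ?_
    · intro z hz
      simp only [mem_filter, mem_univ, true_and] at hz ⊢
      exact ⟨hz.2, hz.1⟩
    · intro a _ b _ hab; exact hab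
    · intro b hb
      simp only [mem_filter, mem_univ, true_and] at hb
      exact ⟨OrderDual.toDual b, by simpa using ⟨hb.2, hb.1⟩, rfl⟩
    · intro z _
      have h3 := h.graded.le_top_rank (OrderDual.ofDual z)
      rw [← pow_add]
      rw [show n + 1 + ρ (OrderDual.ofDual z) = (n + 1 - ρ (OrderDual.ofDual z)) +
        2 * ρ (OrderDual.ofDual z) by omega, pow_add, pow_mul]
      simp
  rw [h2, ← Finset.mul_sum, h1]
  have h3 := h.graded.le_top_rank (OrderDual.ofDual x)
  have h4 := h.graded.le_top_rank (OrderDual.ofDual y)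
  set a := ρ (OrderDual.ofDual x)
  set b := ρ (OrderDual.ofDual y)
  have h5 : Even (b + a) ↔ Even (n + 1 - a + (n + 1 - b)) := by
    rw [Nat.even_iff, Nat.even_iff]; omega
  by_cases he : Even (b + a)
  · rw [if_pos he, if_pos (h5.1 he)]
    rw [← pow_add]
    have h6 : Even (n + 1 + (b + 1) + (n + 1 - a + 1)) := by
      rw [Nat.even_iff] at he ⊢; omega
    have h7 : (-1 : ℤ) ^ (n + 1 + (b + 1)) * (-1 : ℤ) ^ (n + 1 - a + 1) = 1 := by
      rw [← pow_add]; exact h6.neg_one_pow
    have h8 : (-1 : ℤ) ^ (n + 1 - a + 1) * (-1 : ℤ) ^ (n + 1 - a + 1) = 1 := by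
      rw [← pow_add]; exact Even.neg_one_pow ⟨_, rfl⟩
    calc (-1 : ℤ) ^ (n + 1 + (b + 1)) = (-1 : ℤ) ^ (n + 1 + (b + 1)) *
          ((-1 : ℤ) ^ (n + 1 - a + 1) * (-1 : ℤ) ^ (n + 1 - a + 1)) := by rw [h8, mul_one]
      _ = ((-1 : ℤ) ^ (n + 1 + (b + 1)) * (-1 : ℤ) ^ (n + 1 - a + 1)) *
          (-1 : ℤ) ^ (n + 1 - a + 1) := by ring
      _ = _ := by rw [h7, one_mul]
  · rw [if_neg he, if_neg (fun h' => he (h5.2 h')), mul_zero]

lemma HR.dual {n : ℕ} {f : ℕ → ℕ} (h : HR n f) : HR n (fun r => f (n + 1 - r)) := by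
  obtain ⟨P, _, _, _, ρ, h1, h2⟩ := h
  refine ⟨Pᵒᵈ, inferInstance, inferInstance, inferInstance, _, h1.dual, ?_⟩
  intro r hr1 hr2
  rw [lev_dual h1.graded (by omega), h2 _ (by omega) (by omega)]

end dual

section withBot

variable {P : Type} [PartialOrder P] [BoundedOrder P] {n : ℕ} {ρ : P → ℕ}

/-- The rank function after adding a new least element. -/
def botRank (ρ : P → ℕ) : WithBot P → ℕ := WithBot.recBotCoe 0 (fun x => ρ x + 1)

omit [PartialOrder P] [BoundedOrder P] in
lemma sum_withBot [Fintype P] (g : WithBot P → ℤ) :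
    ∑ z, g z = g ⊥ + ∑ z : P, g (z : WithBot P) :=
  Fintype.sum_option g

omit [PartialOrder P] [BoundedOrder P] in
lemma sum_withBot_filter [Fintype P] (p : WithBot P → Prop) [DecidablePred p]
    (g : WithBot P → ℤ) :
    ∑ z with p z, g z =
      (if p ⊥ then g ⊥ else 0) +
        ∑ z ∈ (Finset.univ : Finset P).filter (fun z : P => p (z : WithBot P)),
          g (z : WithBot P) := by
  rw [Finset.sum_filter, sum_withBot, Finset.sum_filter]

lemma HalfEul.withBot [Fintype P] (h : HalfEul n ρ) : HalfEul (n + 1) (botRank ρ) := by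
  classical
  have hsm := h.graded.strictMono
  refine ⟨⟨rfl, ?_, ?_⟩, ?_⟩
  · change ρ ⊤ + 1 = n + 1 + 1
    rw [h.graded.top]
  · intro x y hxy
    induction x using WithBot.recBotCoe with
    | bot =>
      induction y using WithBot.recBotCoe with
      | bot => exact absurd hxy.lt (lt_irrefl _)
      | coe y =>
        change ρ y + 1 = 0 + 1
        have : y = ⊥ := by
          by_contra hne
          refine hxy.2 (c := ((⊥ : P) : WithBot P)) (WithBot.bot_lt_coe _) ?_
          rw [WithBot.coe_lt_coe]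
          exact bot_lt_iff_ne_bot.2 hne
        rw [this, h.graded.bot]
    | coe x =>
      induction y using WithBot.recBotCoe with
      | bot => exact absurd hxy.lt (by simp)
      | coe y =>
        change ρ y + 1 = ρ x + 1 + 1
        rw [WithBot.coe_covBy_coe] at hxy
        rw [h.graded.covBy x y hxy]
  · intro x y hxy
    rw [sum_withBot_filter]
    induction x using WithBot.recBotCoe with
    | bot =>
      induction y using WithBot.recBotCoe with
      | bot => exact absurd hxy (lt_irrefl _)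
      | coe y =>
        simp only [lt_self_iff_false, false_and, if_false, WithBot.bot_lt_coe, true_and,
          WithBot.coe_lt_coe, zero_add]
        change ∑ z with z < y, (-1 : ℤ) ^ (ρ z + 1) =
          if Even (0 + (ρ y + 1)) then (-1) ^ (0 + 1) else 0
        rcases eq_or_lt_of_le (bot_le : ⊥ ≤ y) with h1 | h1
        · subst h1
          simp [h.graded.bot]
        · have h2 : ∑ z with z < y, (-1 : ℤ) ^ (ρ z + 1) =
              -(1 + ∑ z with ⊥ < z ∧ z < y, (-1 : ℤ) ^ (ρ z)) := by
            have e : (univ.filter fun z : P => z < y) =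
                insert ⊥ (univ.filter fun z : P => ⊥ < z ∧ z < y) := by
              ext z
              simp only [mem_filter, mem_univ, true_and, mem_insert]
              constructor
              · intro h3
                rcases eq_or_lt_of_le (bot_le : ⊥ ≤ z) with h4 | h4
                · exact Or.inl h4.symm
                · exact Or.inr ⟨h4, h3⟩
              · rintro (rfl | ⟨-, h3⟩)
                · exact h1
                · exact h3
            rw [e, Finset.sum_insert (by simp), h.graded.bot]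
            simp only [pow_succ, ← Finset.sum_mul]
            ring
          rw [h2, h.sum_eq ⊥ y h1, h.graded.bot]
          by_cases he : Even (ρ y)
          · have h3 : ¬ Even (0 + (ρ y + 1)) := by
              rw [Nat.even_iff] at he ⊢; omega
            rw [if_neg h3, if_pos (by simpa using he)]
            norm_num
          · have h3 : Even (0 + (ρ y + 1)) := by
              rw [Nat.even_iff] at he ⊢; omega
            rw [if_pos h3, if_neg (by simpa using he)]
            norm_num
    | coe x =>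
      induction y using WithBot.recBotCoe with
      | bot => exact absurd hxy (by simp)
      | coe y =>
        rw [WithBot.coe_lt_coe] at hxy
        simp only [WithBot.coe_lt_coe, not_lt_bot, false_and, if_false, zero_add]
        change ∑ z with x < z ∧ z < y, (-1 : ℤ) ^ (ρ z + 1) =
          if Even ((ρ x + 1) + (ρ y + 1)) then (-1) ^ ((ρ x + 1) + 1) else 0
        have h2 : ∑ z with x < z ∧ z < y, (-1 : ℤ) ^ (ρ z + 1) =
            - ∑ z with x < z ∧ z < y, (-1 : ℤ) ^ (ρ z) := by
          simp only [pow_succ, ← Finset.sum_mul]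
          ring
        rw [h2, h.sum_eq x y hxy]
        have h5 : Even (ρ x + 1 + (ρ y + 1)) ↔ Even (ρ x + ρ y) := by
          rw [Nat.even_iff, Nat.even_iff]; omega
        by_cases he : Even (ρ x + ρ y)
        · rw [if_pos he, if_pos (h5.2 he)]
          ring
        · rw [if_neg he, if_neg (fun h' => he (h5.1 h'))]
          ring

lemma HR.withBot {n : ℕ} {f : ℕ → ℕ} (h : HR n f) :
    HR (n + 1) (fun r => if r = 1 then 1 else f (r - 1)) := by
  classical
  obtain ⟨P, _, _, _, ρ, h1, h2⟩ := h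
  refine ⟨WithBot P, inferInstance, inferInstance, inferInstance, _, h1.withBot, ?_⟩
  intro r hr1 hr2
  have hcard : lev (botRank ρ) r = lev ρ (r - 1) := by
    unfold lev
    symm
    refine Nat.card_eq_of_bijective
      (fun x : {x : P // ρ x = r - 1} => ⟨(x.1 : WithBot P), ?_⟩) ⟨?_, ?_⟩
    · change ρ x.1 + 1 = r
      have := x.2; omega
    · intro x y hxy
      have := congrArg Subtype.val hxy
      simp only [WithBot.coe_inj] at this
      exact Subtype.ext this
    · rintro ⟨x, hx⟩
      induction x using WithBot.recBotCoe with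
      | bot =>
        change 0 = r at hx
        omega
      | coe x =>
        change ρ x + 1 = r at hx
        exact ⟨⟨x, by omega⟩, rfl⟩
  rw [hcard]
  change lev ρ (r - 1) = if r = 1 then 1 else f (r - 1)
  split_ifs with hr
  · subst hr
    rw [lev_eq]
    rw [Finset.card_eq_one]
    refine ⟨⊥, ?_⟩
    ext z
    simp only [mem_filter, mem_univ, true_and, mem_singleton, Nat.sub_self]
    exact ⟨fun hz => h1.graded.eq_bot hz, fun hz => by rw [hz, h1.graded.bot]⟩
  · exact h2 _ (by omega) (by omega)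

lemma HR.congr {n : ℕ} {f g : ℕ → ℕ} (h : HR n f) (hfg : ∀ r, 1 ≤ r → r ≤ n → f r = g r) :
    HR n g := by
  obtain ⟨P, _, _, _, ρ, h1, h2⟩ := h
  exact ⟨P, _, _, _, ρ, h1, fun r hr1 hr2 => by rw [h2 r hr1 hr2, hfg r hr1 hr2]⟩

lemma HR.withTop {n : ℕ} {f : ℕ → ℕ} (h : HR n f) :
    HR (n + 1) (fun r => if r = n + 1 then 1 else f r) := by
  refine (h.dual.withBot.dual).congr ?_
  intro r hr1 hr2
  have e : (n + 1 + 1 - r = 1) ↔ (r = n + 1) := by omega
  simp only [e]
  split_ifs with h1
  · rfl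
  · congr 1; omega

end withBot

end Pool.Agent.Helper738Eul
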