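import Pool.Agent.helper738_Eul.Core

/-!
# The closed convex hull of the f-vectors of Eulerian posets
-/

open Finset Filter Topology

namespace Pool.Agent.Helper738Eul

/-! ### shifting -/

lemma HR.shiftBot {n : ℕ} {f : ℕ → ℕ} (h : HR n f) (a : ℕ) :
    HR (n + a) (fun r => if r ≤ a then 1 else f (r - a)) := by
  induction a with
  | zero => exact h.congr fun r h1 _ => by rw [if_neg (by omega)]; rfl
  | succ a ih =>
    refine ih.withBot.congr ?_
    intro r h1 h2
    by_cases hr : r = 1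
    · simp only [hr, if_true]
      rw [if_pos (by omega)]
    · simp only [hr, if_false]
      by_cases h3 : r ≤ a + 1
      · rw [if_pos (by omega), if_pos h3]
      · rw [if_neg (by omega), if_neg h3]
        congr 1; omega

lemma HR.shiftTop {n : ℕ} {f : ℕ → ℕ} (h : HR n f) (a : ℕ) :
    HR (n + a) (fun r => if r ≤ n then f r else 1) := by
  induction a with
  | zero => exact h.congr fun r _ h2 => by rw [if_pos (by omega)]
  | succ a ih =>
    refine ih.withTop.congr ?_
    intro r h1 h2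
    by_cases hr : r = n + a + 1
    · simp only [hr, if_true]
      rw [if_neg (by omega)]
    · simp only [hr, if_false]

lemma HR.ones (n : ℕ) : HR n (fun _ => 1) := by
  have h0 : HR 0 (fun _ => 1) := by
    refine ⟨Bool, inferInstance, inferInstance, inferInstance, fun b => if b then 1 else 0, ?_, ?_⟩
    · classical
      refine HalfEul.of_two ⟨rfl, rfl, ?_⟩ ?_
      · intro x y hxy
        have := hxy.lt
        revert this
        revert x y
        decide
      · intro x y hxy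
        have h1 : x = false := by revert hxy; revert x y; decide
        have h2 : y = true := by revert hxy; revert x y; decide
        subst h1 h2
        have h3 : ∀ z : Bool, ¬ (false < z ∧ z < true) := by decide
        simp only [h3, Finset.filter_false, Finset.sum_empty]
        simp
    · intro r h1 h2; omega
  have := h0.shiftBot n
  rw [zero_add] at this
  exact this.congr fun r _ h2 => by rw [if_pos h2]

/-- The half-Eulerian posets for a pair of adjacent ranks. -/
lemma HR.adj {n j N : ℕ} (hN : 0 < N) (h1 : 1 ≤ j) (h2 : j + 1 ≤ n) :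
    HR n (fun r => if r = j ∨ r = j + 1 then N else 1) := by
  obtain ⟨a, rfl⟩ : ∃ a, j = a + 1 := ⟨j - 1, by omega⟩
  obtain ⟨b, rfl⟩ : ∃ b, n = 2 + a + b := ⟨n - (2 + a), by omega⟩
  refine (((HR.chains hN).shiftBot a).shiftTop b).congr ?_
  intro r hr1 hr2
  by_cases h3 : r ≤ a
  · rw [if_pos (by omega), if_pos h3, if_neg (by omega)]
  · by_cases h4 : r ≤ 2 + a
    · rw [if_pos h4, if_neg h3, if_pos (by omega)]
    · rw [if_neg h4, if_neg (by omega)]

/-- The half-Eulerian posets for a pair of ranks at odd distance. -/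
lemma HR.far {n j k M : ℕ} (hM : 0 < M) (h1 : 2 ≤ j) (h2 : j < k) (h3 : k + 1 ≤ n)
    (h4 : Odd (k - j)) :
    ∃ f : ℕ → ℕ, HR n f ∧ f j = M * M + M ∧ f k = M * M + M ∧
      ∀ r, r ≠ j → r ≠ k → f r ≤ 2 * M := by
  obtain ⟨a, rfl⟩ : ∃ a, j = a + 2 := ⟨j - 2, by omega⟩
  obtain ⟨m, rfl⟩ : ∃ m, k = a + 2 + m := ⟨k - (a + 2), by omega⟩
  obtain ⟨b, rfl⟩ : ∃ b, n = m + 3 + a + b := ⟨n - (m + 3 + a), by omega⟩
  have hm : Odd m := by rwa [show a + 2 + m - (a + 2) = m by omega] at h4
  refine ⟨_, ((HR.core hM hm).shiftBot a).shiftTop b, ?_, ?_, ?_⟩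
  · rw [if_pos (by omega), if_neg (by omega), show a + 2 - a = 2 by omega]
    have : ¬ (2 = 2 + m) := by have := hm.pos; omega
    simp only [C4.levs]
    rw [if_neg (by omega), if_pos trivial, if_neg (by omega), if_pos (by have := hm.pos; omega),
      if_neg this, if_neg (by omega)]
    ring
  · rw [if_pos (by omega), if_neg (by omega), show a + 2 + m - a = 2 + m by omega]
    have h0 := hm.pos
    simp only [C4.levs]
    rw [if_neg (by omega), if_neg (by omega), if_pos (by omega), if_neg (by omega),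
      if_pos trivial, if_neg (by omega)]
    ring
  · intro r hr1 hr2
    split_ifs with h5 h6
    · omega
    · simp only [C4.levs]
      have e1 : ¬ (r - a = 2) := by omega
      have e2 : ¬ (r - a = 2 + m) := by omega
      rw [if_neg e1, if_neg e2]
      split_ifs <;> omega
    · omega

/-! ### recession directions -/

section recession

variable {n : ℕ}

/-- Recession directions of a set. -/
def Rec (K : Set (Fin n → ℝ)) : Set (Fin n → ℝ) :=
  {d | ∀ x ∈ K, ∀ c : ℝ, 0 ≤ c → x + c • d ∈ K}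

lemma rec_zero (K : Set (Fin n → ℝ)) : (0 : Fin n → ℝ) ∈ Rec K := by
  intro x hx c _
  simpa using hx

lemma rec_add {K : Set (Fin n → ℝ)} {d e : Fin n → ℝ} (hd : d ∈ Rec K) (he : e ∈ Rec K) :
    d + e ∈ Rec K := by
  intro x hx c hc
  rw [smul_add, ← add_assoc]
  exact he _ (hd x hx c hc) c hc

lemma rec_smul {K : Set (Fin n → ℝ)} {d : Fin n → ℝ} (hd : d ∈ Rec K) {c : ℝ} (hc : 0 ≤ c) :
    c • d ∈ Rec K := by
  intro x hx c' hc'
  rw [smul_smul]
  exact hd x hx _ (mul_nonneg hc' hc)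

lemma rec_sum {ι : Type} (s : Finset ι) {K : Set (Fin n → ℝ)} (d : ι → Fin n → ℝ)
    (hd : ∀ i ∈ s, d i ∈ Rec K) : ∑ i ∈ s, d i ∈ Rec K := by
  classical
  induction s using Finset.induction_on with
  | empty => simpa using rec_zero K
  | insert a s ha ih =>
    rw [Finset.sum_insert ha]
    exact rec_add (hd a (Finset.mem_insert_self _ _))
      (ih fun i hi => hd i (Finset.mem_insert_of_mem hi))

lemma rec_of_seq {K : Set (Fin n → ℝ)} (hK : IsClosed K) (hc : Convex ℝ K) {d : Fin n → ℝ}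
    (h : ∀ M : ℕ, 0 < M → ∃ p ∈ K, ∀ i, |p i / (2 * (M : ℝ) ^ 2) - d i| ≤ (2 : ℝ) / (M : ℝ)) :
    d ∈ Rec K := by
  intro x hx c hc0
  have h' : ∀ M : ℕ, ∃ p ∈ K, ∀ i, |p i / (2 * ((M : ℝ) + 1) ^ 2) - d i| ≤
      (2 : ℝ) / ((M : ℝ) + 1) := by
    intro M
    obtain ⟨p, hp, hp'⟩ := h (M + 1) (Nat.succ_pos _)
    refine ⟨p, hp, fun i => ?_⟩
    have := hp' i
    push_cast at this
    exact this
  choose p hp hpd using h'
  let t : ℕ → ℝ := fun M => c / (2 * ((M : ℝ) + 1) ^ 2)
  have h1 : Tendsto (fun M : ℕ => (2 : ℝ) / ((M : ℝ) + 1)) atTop (𝓝 0) := by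
    have := tendsto_one_div_add_atTop_nhds_zero_nat (𝕜 := ℝ)
    have h2 := this.const_mul 2
    simp only [mul_zero] at h2
    refine h2.congr fun M => ?_
    ring
  have ht : Tendsto t atTop (𝓝 0) := by
    have := tendsto_one_div_add_atTop_nhds_zero_nat (𝕜 := ℝ)
    have h2 := (this.mul this).const_mul (c / 2)
    simp only [mul_zero] at h2
    refine h2.congr fun M => ?_
    have : (M : ℝ) + 1 ≠ 0 := by positivity
    simp only [t]
    field_simp
  have hlim : Tendsto (fun M => (1 - t M) • x + t M • p M) atTop (𝓝 (x + c • d)) := by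
    rw [tendsto_pi_nhds]
    intro i
    have h3 : Tendsto (fun M => p M i / (2 * ((M : ℝ) + 1) ^ 2) - d i) atTop (𝓝 0) :=
      squeeze_zero_norm (fun M => by rw [Real.norm_eq_abs]; exact hpd M i) h1
    have h4 : Tendsto (fun M => (1 - t M) * x i + c * (p M i / (2 * ((M : ℝ) + 1) ^ 2) - d i) +
        c * d i) atTop (𝓝 ((1 - 0) * x i + c * 0 + c * d i)) :=
      (((tendsto_const_nhds.sub ht).mul_const _).add (h3.const_mul c)).add_const _
    have e : (x + c • d) i = (1 - 0) * x i + c * 0 + c * d i := by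
      simp only [Pi.add_apply, Pi.smul_apply, smul_eq_mul]; ring
    rw [e]
    refine h4.congr fun M => ?_
    simp only [Pi.add_apply, Pi.smul_apply, smul_eq_mul, t]
    ring
  refine hK.mem_of_tendsto hlim ?_
  have hev : ∀ᶠ M in atTop, t M < 1 := ht.eventually (gt_mem_nhds one_pos)
  filter_upwards [hev] with M hM
  have ht0 : 0 ≤ t M := by
    simp only [t]; positivity
  exact hc hx (hp M) (by linarith) ht0 (by ring)

end recession

/-! ### the inclusion of the hull in the polyhedron -/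

/-- The polyhedron. -/
def Poly (n : ℕ) : Set (Fin n → ℝ) :=
  {x | (∀ i, 2 ≤ x i) ∧ ∑ i : Fin n, (-1 : ℝ) ^ (i : ℕ) * x i = 1 - (-1) ^ n ∧
    (∀ i j : Fin n, (i : ℕ) = 0 → (j : ℕ) = 1 → x i ≤ x j) ∧
    (∀ i j : Fin n, (i : ℕ) + 1 = n → (j : ℕ) + 2 = n → x i ≤ x j)}

lemma poly_closed (n : ℕ) : IsClosed (Poly n) := by
  have h1 : IsClosed {x : Fin n → ℝ | ∀ i, 2 ≤ x i} := by
    simp only [Set.ofPred_forall]
    exact isClosed_iInter fun i => isClosed_le continuous_const (continuous_apply i)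
  have h2 : IsClosed {x : Fin n → ℝ | ∑ i : Fin n, (-1 : ℝ) ^ (i : ℕ) * x i = 1 - (-1) ^ n} :=
    isClosed_eq (continuous_finsetSum _ fun i _ => continuous_const.mul (continuous_apply i))
      continuous_const
  have h3 : IsClosed {x : Fin n → ℝ | ∀ i j : Fin n, (i : ℕ) = 0 → (j : ℕ) = 1 → x i ≤ x j} := by
    simp only [Set.ofPred_forall]
    exact isClosed_iInter fun i => isClosed_iInter fun j => isClosed_iInter fun _ =>
      isClosed_iInter fun _ => isClosed_le (continuous_apply i) (continuous_apply j)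
  have h4 : IsClosed {x : Fin n → ℝ | ∀ i j : Fin n, (i : ℕ) + 1 = n → (j : ℕ) + 2 = n →
      x i ≤ x j} := by
    simp only [Set.ofPred_forall]
    exact isClosed_iInter fun i => isClosed_iInter fun j => isClosed_iInter fun _ =>
      isClosed_iInter fun _ => isClosed_le (continuous_apply i) (continuous_apply j)
  exact h1.inter (h2.inter (h3.inter h4))

lemma poly_convex (n : ℕ) : Convex ℝ (Poly n) := by
  rintro x ⟨hx1, hx2, hx3, hx4⟩ y ⟨hy1, hy2, hy3, hy4⟩ a b ha hb hab
  refine ⟨fun i => ?_, ?_, fun i j hi hj => ?_, fun i j hi hj => ?_⟩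
  · simp only [Pi.add_apply, Pi.smul_apply, smul_eq_mul]
    have e1 := mul_le_mul_of_nonneg_left (hx1 i) ha
    have e2 := mul_le_mul_of_nonneg_left (hy1 i) hb
    have : a * 2 + b * 2 = 2 := by rw [← add_mul, hab, one_mul]
    linarith
  · simp only [Pi.add_apply, Pi.smul_apply, smul_eq_mul]
    have : ∑ i : Fin n, (-1 : ℝ) ^ (i : ℕ) * (a * x i + b * y i) =
        a * ∑ i : Fin n, (-1 : ℝ) ^ (i : ℕ) * x i + b * ∑ i : Fin n, (-1 : ℝ) ^ (i : ℕ) * y i := by
      rw [Finset.mul_sum, Finset.mul_sum, ← Finset.sum_add_distrib]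
      exact Finset.sum_congr rfl fun i _ => by ring
    rw [this, hx2, hy2, ← add_mul, hab, one_mul]
  · simp only [Pi.add_apply, Pi.smul_apply, smul_eq_mul]
    have e1 := mul_le_mul_of_nonneg_left (hx3 i j hi hj) ha
    have e2 := mul_le_mul_of_nonneg_left (hy3 i j hi hj) hb
    linarith
  · simp only [Pi.add_apply, Pi.smul_apply, smul_eq_mul]
    have e1 := mul_le_mul_of_nonneg_left (hx4 i j hi hj) ha
    have e2 := mul_le_mul_of_nonneg_left (hy4 i j hi hj) hb
    linarith

lemma fVectors_subset (n : ℕ) : FVectors n ⊆ Poly n := by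
  classical
  rintro x ⟨v, ⟨P, _, _, _, ρ, h, he, hv⟩, hx⟩
  have := Fintype.ofFinite P
  have hx' : ∀ i : Fin n, x i = (lev ρ (i + 1) : ℝ) := by
    intro i
    have := i.2
    rw [hx, hv, Finset.image_singleton, flagNumber_singleton h (by omega) (by omega)]
    norm_cast
  refine ⟨fun i => ?_, ?_, fun i j hi hj => ?_, fun i j hi hj => ?_⟩
  · rw [hx']
    have := i.2
    exact_mod_cast two_le_lev h he (by omega) (by omega)
  · have h1 := euler_rel h he
    have h2 : ((∑ i : Fin n, (-1 : ℤ) ^ (i : ℕ) * lev ρ (i + 1) : ℤ) : ℝ) =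
        ((1 - (-1) ^ n : ℤ) : ℝ) := by rw [h1]
    push_cast at h2
    rw [← h2]
    exact Finset.sum_congr rfl fun i _ => by rw [hx']
  · rw [hx', hx', hi, hj]
    have := j.2
    exact_mod_cast lev_one_le h he (by omega)
  · rw [hx', hx']
    have h1 := lev_last_le h he (by omega)
    rw [show (i : ℕ) + 1 = n by omega, show (j : ℕ) + 1 = n - 1 by omega]
    exact_mod_cast h1

/-! ### the inclusion of the polyhedron in the hull -/

/-- The closed convex hull. -/
def Hull (n : ℕ) : Set (Fin n → ℝ) := closure (convexHull ℝ (FVectors n))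

lemma hull_closed (n : ℕ) : IsClosed (Hull n) := isClosed_closure

lemma hull_convex (n : ℕ) : Convex ℝ (Hull n) := (convex_convexHull ℝ _).closure

lemma HR.mem_hull {n : ℕ} {f : ℕ → ℕ} (h : HR n f) :
    (fun i : Fin n => (2 * f (i + 1) : ℝ)) ∈ Hull n := by
  obtain ⟨v, hv, hv'⟩ := h.exists_flag
  apply subset_closure
  apply subset_convexHull
  refine ⟨v, hv, fun i => ?_⟩
  rw [hv']
  push_cast
  rfl

lemma twos_mem_hull (n : ℕ) : (fun _ : Fin n => (2 : ℝ)) ∈ Hull n := by
  have := (HR.ones n).mem_hull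
  simpa using this

lemma ray_mem {n : ℕ} {i j : Fin n} (hij : (i : ℕ) < j) (hodd : Odd ((j : ℕ) - i))
    (h : (j : ℕ) = i + 1 ∨ (1 ≤ (i : ℕ) ∧ (j : ℕ) + 2 ≤ n)) :
    (Pi.single i 1 + Pi.single j 1 : Fin n → ℝ) ∈ Rec (Hull n) := by
  have hi := i.2
  have hj := j.2
  have hne : i ≠ j := fun h => by rw [h] at hij; exact lt_irrefl _ hij
  -- a common estimate
  have key : ∀ M : ℕ, 0 < M → ∀ f : ℕ → ℕ, (M * M ≤ f (i + 1) ∧ f (i + 1) ≤ M * M + M) →
      (M * M ≤ f (j + 1) ∧ f (j + 1) ≤ M * M + M) →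
      (∀ r, r ≠ (i : ℕ) + 1 → r ≠ (j : ℕ) + 1 → f r ≤ 2 * M) →
      ∀ k : Fin n, |(2 * f (k + 1) : ℝ) / (2 * (M : ℝ) ^ 2) -
        (Pi.single i 1 + Pi.single j 1 : Fin n → ℝ) k| ≤ (2 : ℝ) / (M : ℝ) := by
    intro M hM f h1 h2 h3 k
    have hM' : (0 : ℝ) < M := by exact_mod_cast hM
    have aux : ∀ g : ℕ, M * M ≤ g → g ≤ M * M + M →
        |(2 * g : ℝ) / (2 * (M : ℝ) ^ 2) - 1| ≤ (2 : ℝ) / (M : ℝ) := by
      intro g hg1 hg2
      have hg1' : (M : ℝ) * M ≤ g := by exact_mod_cast hg1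
      have hg2' : (g : ℝ) ≤ M * M + M := by exact_mod_cast hg2
      have e : (2 * g : ℝ) / (2 * (M : ℝ) ^ 2) - 1 = (g - M * M) / (M * M) := by
        field_simp
      rw [e, abs_of_nonneg (div_nonneg (by linarith) (by positivity)), div_le_div_iff₀
        (by positivity) hM']
      nlinarith
    by_cases hk1 : k = i
    · subst hk1
      simp only [Pi.add_apply, Pi.single_eq_same, Pi.single_eq_of_ne hne, add_zero]
      exact aux _ h1.1 h1.2
    · by_cases hk2 : k = j
      · subst hk2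
        simp only [Pi.add_apply, Pi.single_eq_same, Pi.single_eq_of_ne (Ne.symm hne), zero_add]
        exact aux _ h2.1 h2.2
      · simp only [Pi.add_apply, Pi.single_eq_of_ne hk1, Pi.single_eq_of_ne hk2, add_zero, sub_zero]
        have h4 := h3 (k + 1) (fun h' => hk1 (Fin.ext (by omega)))
          (fun h' => hk2 (Fin.ext (by omega)))
        have h4' : (f (k + 1) : ℝ) ≤ 2 * M := by exact_mod_cast h4
        rw [abs_of_nonneg (by positivity), div_le_div_iff₀ (by positivity) hM']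
        have : (0 : ℝ) ≤ f (k + 1) := by positivity
        nlinarith
  refine rec_of_seq (hull_closed n) (hull_convex n) ?_
  intro M hM
  have main : ∃ f : ℕ → ℕ, HR n f ∧ (M * M ≤ f (i + 1) ∧ f (i + 1) ≤ M * M + M) ∧
      (M * M ≤ f (j + 1) ∧ f (j + 1) ≤ M * M + M) ∧
      (∀ r, r ≠ (i : ℕ) + 1 → r ≠ (j : ℕ) + 1 → f r ≤ 2 * M) := by
    rcases h with h | ⟨h1, h2⟩
    · have hA : HR n (fun r => if r = (i : ℕ) + 1 ∨ r = (i : ℕ) + 1 + 1 then M * M else 1) :=
        HR.adj (Nat.mul_pos hM hM) (by omega) (by omega)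
      refine ⟨_, hA, ?_, ?_, ?_⟩
      · rw [if_pos (Or.inl rfl)]
        exact ⟨le_refl _, Nat.le_add_right _ _⟩
      · rw [if_pos (Or.inr (by omega))]
        exact ⟨le_refl _, Nat.le_add_right _ _⟩
      · intro r hr1 hr2
        rw [if_neg (by omega)]
        omega
    · obtain ⟨f, hf, hf1, hf2, hf3⟩ := HR.far (n := n) (j := (i : ℕ) + 1) (k := (j : ℕ) + 1)
        (M := M) hM (by omega) (by omega) (by omega)
        (by rwa [show (j : ℕ) + 1 - (i + 1) = j - i by omega])
      refine ⟨f, hf, ?_, ?_, hf3⟩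
      · rw [hf1]; exact ⟨Nat.le_add_right _ _, le_refl _⟩
      · rw [hf2]; exact ⟨Nat.le_add_right _ _, le_refl _⟩
  obtain ⟨f, hf, hf1, hf2, hf3⟩ := main
  exact ⟨fun k : Fin n => (2 * f (k + 1) : ℝ), hf.mem_hull, key M hM f hf1 hf2 hf3⟩

end Pool.Agent.Helper738Eul
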