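import Pool.Agent.helper738_Eul.Hull

/-!
# The closed convex hull of the f-vectors of Eulerian posets: main theorem
-/

open Finset Filter Topology

namespace Pool.Agent.Helper738Eul

lemma transport {n : ℕ} (w : Fin n → ℝ) (h0 : ∀ i, 0 ≤ w i)
    (hs : ∑ i : Fin n, (-1 : ℝ) ^ (i : ℕ) * w i = 0)
    (h1 : ∀ i : Fin n, (i : ℕ) = 0 → w i = 0) (h2 : ∀ i : Fin n, (i : ℕ) + 1 = n → w i = 0) :
    w ∈ Rec (Hull n) := by
  classical
  set S : ℝ := ∑ i : Fin n, (if Even (i : ℕ) then w i else 0) with hS
  set T : ℝ := ∑ i : Fin n, (if Odd (i : ℕ) then w i else 0) with hT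
  have hST : S = T := by
    have : ∑ i : Fin n, (-1 : ℝ) ^ (i : ℕ) * w i = S - T := by
      rw [hS, hT, ← Finset.sum_sub_distrib]
      refine Finset.sum_congr rfl fun i _ => ?_
      rcases Nat.even_or_odd (i : ℕ) with h | h
      · rw [if_pos h, if_neg (Nat.not_odd_iff_even.2 h), h.neg_one_pow]; ring
      · rw [if_pos h, if_neg (Nat.not_even_iff_odd.2 h), h.neg_one_pow]; ring
    linarith
  have hS0 : 0 ≤ S := Finset.sum_nonneg fun i _ => by split_ifs <;> simp [h0]
  rcases hS0.eq_or_lt with hz | hpos
  · -- all entries vanish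
    have hw : w = 0 := by
      funext i
      rcases Nat.even_or_odd (i : ℕ) with h | h
      · have := Finset.single_le_sum (f := fun i : Fin n => if Even (i : ℕ) then w i else 0)
          (fun i _ => by split_ifs <;> simp [h0]) (Finset.mem_univ i)
        simp only [if_pos h] at this
        have h3 := h0 i
        simp only [Pi.zero_apply]
        linarith
      · have := Finset.single_le_sum (f := fun i : Fin n => if Odd (i : ℕ) then w i else 0)
          (fun i _ => by split_ifs <;> simp [h0]) (Finset.mem_univ i)
        simp only [if_pos h] at this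
        have h3 := h0 i
        simp only [Pi.zero_apply]
        linarith
    rw [hw]
    exact rec_zero _
  · let c : Fin n → Fin n → ℝ := fun i j =>
      (if Even (i : ℕ) then w i else 0) * (if Odd (j : ℕ) then w j else 0) / S
    have hc : w = ∑ i, ∑ j, c i j • (Pi.single i 1 + Pi.single j 1 : Fin n → ℝ) := by
      funext k
      simp only [Finset.sum_apply, Pi.smul_apply, Pi.add_apply, smul_eq_mul, mul_add,
        Finset.sum_add_distrib, Pi.single_apply, mul_ite, mul_one, mul_zero]
      have e1 : ∑ i, ∑ j, (if k = i then c i j else 0) = (if Even (k : ℕ) then w k else 0) := by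
        rw [Finset.sum_eq_single k]
        · simp only [if_true, c]
          rw [← Finset.sum_div, ← Finset.mul_sum, ← hT, ← hST]
          field_simp
        · intro i _ hi
          simp [hi.symm]
        · simp
      have e2 : ∑ i, ∑ j, (if k = j then c i j else 0) = (if Odd (k : ℕ) then w k else 0) := by
        rw [Finset.sum_comm, Finset.sum_eq_single k]
        · simp only [if_true, c]
          rw [← Finset.sum_div, ← Finset.sum_mul, ← hS]
          field_simp
        · intro i _ hi
          simp [hi.symm]
        · simp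
      rw [e1, e2]
      rcases Nat.even_or_odd (k : ℕ) with h | h
      · rw [if_pos h, if_neg (Nat.not_odd_iff_even.2 h), add_zero]
      · rw [if_pos h, if_neg (Nat.not_even_iff_odd.2 h), zero_add]
    rw [hc]
    refine rec_sum _ _ fun i _ => rec_sum _ _ fun j _ => ?_
    by_cases hi : Even (i : ℕ) ∧ w i ≠ 0
    · by_cases hj : Odd (j : ℕ) ∧ w j ≠ 0
      · have hi1 : 1 ≤ (i : ℕ) := by
          by_contra h'
          exact hi.2 (h1 i (by omega))
        have hi2 : (i : ℕ) + 2 ≤ n := by
          by_contra h'
          have := i.2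
          exact hi.2 (h2 i (by omega))
        have hj1 : 1 ≤ (j : ℕ) := by
          by_contra h'
          exact hj.2 (h1 j (by omega))
        have hj2 : (j : ℕ) + 2 ≤ n := by
          by_contra h'
          have := j.2
          exact hj.2 (h2 j (by omega))
        have hcn : 0 ≤ c i j := by
          simp only [c]
          rw [if_pos hi.1, if_pos hj.1]
          exact div_nonneg (mul_nonneg (h0 _) (h0 _)) hpos.le
        refine rec_smul ?_ hcn
        have hij : (i : ℕ) ≠ j := by
          intro h'
          rw [h'] at hi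
          exact Nat.not_even_iff_odd.2 hj.1 hi.1
        rcases Nat.lt_or_gt_of_ne hij with h' | h'
        · refine ray_mem h' ?_ (Or.inr ⟨hi1, hj2⟩)
          have e1 := hi.1
          have e2 := hj.1
          rw [Nat.even_iff] at e1
          rw [Nat.odd_iff] at e2 ⊢
          omega
        · rw [add_comm]
          refine ray_mem h' ?_ (Or.inr ⟨hj1, hi2⟩)
          have e1 := hi.1
          have e2 := hj.1
          rw [Nat.even_iff] at e1
          rw [Nat.odd_iff] at e2 ⊢
          omega
      · have : c i j = 0 := by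
          simp only [c]
          by_cases hj' : Odd (j : ℕ)
          · have : w j = 0 := by
              by_contra h'; exact hj ⟨hj', h'⟩
            simp [this]
          · simp [hj']
        rw [this, zero_smul]
        exact rec_zero _
    · have : c i j = 0 := by
        simp only [c]
        by_cases hi' : Even (i : ℕ)
        · have : w i = 0 := by
            by_contra h'; exact hi ⟨hi', h'⟩
          simp [this]
        · simp [hi']
      rw [this, zero_smul]
      exact rec_zero _

lemma rec_of_nonneg {n : ℕ} (y : Fin n → ℝ) (h0 : ∀ i, 0 ≤ y i)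
    (hs : ∑ i : Fin n, (-1 : ℝ) ^ (i : ℕ) * y i = 0)
    (h1 : ∀ i j : Fin n, (i : ℕ) = 0 → (j : ℕ) = 1 → y i ≤ y j)
    (h2 : ∀ i j : Fin n, (i : ℕ) + 1 = n → (j : ℕ) + 2 = n → y i ≤ y j) :
    y ∈ Rec (Hull n) := by
  classical
  rcases Nat.lt_or_ge n 4 with hn | hn
  · -- small cases
    obtain rfl | rfl | rfl | rfl : n = 0 ∨ n = 1 ∨ n = 2 ∨ n = 3 := by omega
    · have : y = 0 := Subsingleton.elim _ _
      rw [this]; exact rec_zero _
    · have : y = 0 := by
        funext i
        simp only [Fin.sum_univ_succ, Fin.val_zero, pow_zero, one_mul, Finset.univ_eq_empty,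
          Finset.sum_empty, add_zero] at hs
        have : i = 0 := Subsingleton.elim _ _
        rw [this, hs]; rfl
      rw [this]; exact rec_zero _
    · have e : y = y 0 • (Pi.single 0 1 + Pi.single 1 1 : Fin 2 → ℝ) := by
        rw [Fin.sum_univ_two] at hs
        simp at hs
        funext i
        fin_cases i
        · simp
        · simp; linarith
      rw [e]
      exact rec_smul (ray_mem (by simp) (by simp) (Or.inl (by simp))) (h0 0)
    · have e : y = y 0 • (Pi.single 0 1 + Pi.single 1 1 : Fin 3 → ℝ) +
          y 2 • (Pi.single 1 1 + Pi.single 2 1 : Fin 3 → ℝ) := by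
        rw [Fin.sum_univ_three] at hs
        simp at hs
        funext i
        fin_cases i
        · simp
        · simp; linarith
        · simp
      rw [e]
      exact rec_add (rec_smul (ray_mem (by simp) (by simp) (Or.inl (by simp))) (h0 0))
        (rec_smul (ray_mem (by simp) (by simp) (Or.inl (by simp))) (h0 2))
  · -- peel off the ends
    obtain ⟨m, rfl⟩ : ∃ m, n = m + 4 := ⟨n - 4, by omega⟩
    let i0 : Fin (m + 4) := ⟨0, by omega⟩
    let i1 : Fin (m + 4) := ⟨1, by omega⟩
    let i2 : Fin (m + 4) := ⟨m + 2, by omega⟩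
    let i3 : Fin (m + 4) := ⟨m + 3, by omega⟩
    have n01 : i0 ≠ i1 := by simp [i0, i1]
    have n02 : i0 ≠ i2 := by simp [i0, i2]
    have n03 : i0 ≠ i3 := by simp [i0, i3]
    have n12 : i1 ≠ i2 := by simp [i1, i2]
    have n13 : i1 ≠ i3 := by simp [i1, i3]
    have n23 : i2 ≠ i3 := by simp [i2, i3]
    set d1 : Fin (m + 4) → ℝ := Pi.single i0 1 + Pi.single i1 1 with hd1
    set d2 : Fin (m + 4) → ℝ := Pi.single i2 1 + Pi.single i3 1 with hd2
    have r1 : d1 ∈ Rec (Hull (m + 4)) :=
      ray_mem (by simp [i0, i1]) (by simp [i0, i1]) (Or.inl (by simp [i0, i1]))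
    have r2 : d2 ∈ Rec (Hull (m + 4)) :=
      ray_mem (by simp [i2, i3]) (by simp [i2, i3]) (Or.inl (by simp [i2, i3]))
    set w : Fin (m + 4) → ℝ := y - y i0 • d1 - y i3 • d2 with hw
    have hyw : y = w + y i0 • d1 + y i3 • d2 := by rw [hw]; abel
    have v1 : ∀ k, d1 k = (if k = i0 then 1 else 0) + (if k = i1 then 1 else 0) := fun k => by
      simp only [hd1, Pi.add_apply, Pi.single_apply]
    have v2 : ∀ k, d2 k = (if k = i2 then 1 else 0) + (if k = i3 then 1 else 0) := fun k => by
      simp only [hd2, Pi.add_apply, Pi.single_apply]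
    have hwk : ∀ k, w k = y k - y i0 * d1 k - y i3 * d2 k := fun k => by
      simp only [hw, Pi.sub_apply, Pi.smul_apply, smul_eq_mul]
    rw [hyw]
    refine rec_add (rec_add (transport w ?_ ?_ ?_ ?_) (rec_smul r1 (h0 _))) (rec_smul r2 (h0 _))
    · intro k
      rw [hwk, v1, v2]
      have a1 := h1 i0 i1 rfl rfl
      have a2 := h2 i3 i2 rfl rfl
      by_cases k0 : k = i0
      · subst k0
        rw [if_pos rfl, if_neg n01, if_neg n02, if_neg n03]; simp
      · by_cases k1 : k = i1
        · subst k1
          rw [if_pos rfl, if_neg n01.symm, if_neg n12, if_neg n13]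
          simp only [zero_add, mul_one, add_zero, mul_zero, sub_zero]
          linarith
        · by_cases k2 : k = i2
          · subst k2
            rw [if_pos rfl, if_neg n02.symm, if_neg n12.symm, if_neg n23]
            simp only [zero_add, mul_one, add_zero, mul_zero, sub_zero]
            linarith
          · by_cases k3 : k = i3
            · subst k3
              rw [if_pos rfl, if_neg n03.symm, if_neg n13.symm, if_neg n23.symm]; simp
            · rw [if_neg k0, if_neg k1, if_neg k2, if_neg k3]
              simp only [add_zero, mul_zero, sub_zero]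
              exact h0 k
    · have e : ∀ k : Fin (m + 4), (-1 : ℝ) ^ (k : ℕ) * w k = (-1 : ℝ) ^ (k : ℕ) * y k -
          y i0 * (((if k = i0 then (-1 : ℝ) ^ (k : ℕ) else 0)) +
            (if k = i1 then (-1 : ℝ) ^ (k : ℕ) else 0)) -
          y i3 * (((if k = i2 then (-1 : ℝ) ^ (k : ℕ) else 0)) +
            (if k = i3 then (-1 : ℝ) ^ (k : ℕ) else 0)) := by
        intro k
        rw [hwk, v1, v2]
        split_ifs <;> ring
      rw [Finset.sum_congr rfl fun k _ => e k, Finset.sum_sub_distrib, Finset.sum_sub_distrib, hs,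
        ← Finset.mul_sum, ← Finset.mul_sum, Finset.sum_add_distrib, Finset.sum_add_distrib]
      simp only [Finset.sum_ite_eq', Finset.mem_univ, if_true]
      have p0 : (-1 : ℝ) ^ (i0 : ℕ) = 1 := by simp [i0]
      have p1 : (-1 : ℝ) ^ (i1 : ℕ) = -1 := by simp [i1]
      have p2 : (-1 : ℝ) ^ (i2 : ℕ) = (-1) ^ m := by
        simp only [i2, pow_add]; norm_num
      have p3 : (-1 : ℝ) ^ (i3 : ℕ) = -(-1) ^ m := by
        simp only [i3, pow_add]; norm_num
      rw [p0, p1, p2, p3]; ring
    · intro k hk
      have : k = i0 := Fin.ext hk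
      rw [hwk, v1, v2, this, if_pos rfl, if_neg n01, if_neg n02, if_neg n03]; simp
    · intro k hk
      have : k = i3 := Fin.ext (by simp only [i3]; omega)
      rw [hwk, v1, v2, this, if_pos rfl, if_neg n03.symm, if_neg n13.symm, if_neg n23.symm]; simp

lemma sum_alt (n : ℕ) : ∑ i : Fin n, (-1 : ℝ) ^ (i : ℕ) * 2 = 1 - (-1) ^ n := by
  rw [Fin.sum_univ_eq_sum_range (fun i => (-1 : ℝ) ^ i * 2) n]
  induction n with
  | zero => simp
  | succ n ih => rw [Finset.sum_range_succ, ih, pow_succ]; ring

theorem hull_eq (n : ℕ) : closure (convexHull ℝ (FVectors n)) = Poly n := by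
  apply Set.Subset.antisymm
  · exact closure_minimal (convexHull_min (fVectors_subset n) (poly_convex n)) (poly_closed n)
  · rintro x ⟨hx1, hx2, hx3, hx4⟩
    have h := rec_of_nonneg (fun i => x i - 2) (fun i => by linarith [hx1 i])
      (by
        simp only [mul_sub, Finset.sum_sub_distrib]
        rw [hx2, sum_alt]; ring)
      (fun i j hi hj => by linarith [hx3 i j hi hj])
      (fun i j hi hj => by linarith [hx4 i j hi hj])
    have h2 := h _ (twos_mem_hull n) 1 zero_le_one
    have : ((fun _ : Fin n => (2 : ℝ)) + (1 : ℝ) • fun i => x i - 2) = x := by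
      funext i
      simp only [Pi.add_apply, Pi.smul_apply, smul_eq_mul]; ring
    rw [this] at h2
    exact h2

end Pool.Agent.Helper738Eul
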