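import Pool.Agent.helper738_Eul.Basic

/-!
# Linear relations and inequalities for the level sizes of Eulerian posets
-/

open Finset

namespace Pool.Agent.Helper738Eul

variable {P : Type} [PartialOrder P] [BoundedOrder P] {n : ℕ} {ρ : P → ℕ}

/-- The number of elements of rank `r`. -/
noncomputable def lev (ρ : P → ℕ) (r : ℕ) : ℕ := Nat.card {x : P // ρ x = r}

lemma flagNumber_singleton [Finite P] (h : IsGraded n ρ) {r : ℕ} (h1 : 1 ≤ r) (h2 : r ≤ n) :
    flagNumber ρ {r} = lev ρ r := by
  classical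
  unfold flagNumber lev
  symm
  have hsm := h.strictMono
  refine Nat.card_eq_of_bijective (fun x : {x : P // ρ x = r} => ⟨{x.1}, ?_, ?_, ?_, ?_⟩) ⟨?_, ?_⟩
  · simp
  · simp only [mem_singleton]
    intro hx
    have := x.2
    rw [← hx, h.bot] at this
    omega
  · simp only [mem_singleton]
    intro hx
    have := x.2
    rw [← hx, h.top] at this
    omega
  · simp [x.2]
  · intro x y hxy
    have := congrArg Subtype.val hxy
    simp only [singleton_inj] at this
    exact Subtype.ext this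
  · rintro ⟨C, hC, -, -, hS⟩
    have hne : C.Nonempty := by
      rw [← Finset.image_nonempty (f := ρ), hS]; simp
    obtain ⟨x, hx⟩ := hne
    have hρ : ∀ y ∈ C, ρ y = r := by
      intro y hy
      have : ρ y ∈ C.image ρ := Finset.mem_image_of_mem _ hy
      rw [hS] at this
      simpa using this
    refine ⟨⟨x, hρ x hx⟩, ?_⟩
    apply Subtype.ext
    ext y
    simp only [mem_singleton]
    constructor
    · rintro rfl; exact hx
    · intro hy
      by_contra hne
      rcases hC hy hx hne with h' | h'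
      · have := hsm h'
        rw [hρ y hy, hρ x hx] at this
        omega
      · have := hsm h'
        rw [hρ y hy, hρ x hx] at this
        omega

open Classical in
omit [PartialOrder P] [BoundedOrder P] in
lemma lev_eq [Fintype P] (r : ℕ) : lev ρ r = #{x : P | ρ x = r} := by
  unfold lev
  rw [Nat.card_eq_fintype_card, Fintype.card_subtype]

open Classical in
/-- In an interval of length two there are exactly two middle elements. -/
lemma IsEulerian.two [Fintype P] (h : IsGraded n ρ) (he : IsEulerian ρ) {x y : P} (hxy : x < y)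
    (hr : ρ y = ρ x + 2) : #{z | x < z ∧ z < y} = 2 := by
  have h1 := (isEulerian_iff.1 he) x y hxy
  rw [sum_Icc_eq hxy] at h1
  have h2 : ∑ z with x < z ∧ z < y, (-1 : ℤ) ^ (ρ z) =
      (#{z | x < z ∧ z < y} : ℤ) * (-1) ^ (ρ x + 1) := by
    rw [Finset.sum_congr rfl (g := fun _ => (-1 : ℤ) ^ (ρ x + 1))]
    · simp
    · intro z hz
      rw [Finset.mem_filter] at hz
      have h3 := h.strictMono hz.2.1
      have h4 := h.strictMono hz.2.2
      have : ρ z = ρ x + 1 := by omega
      rw [this]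
  rw [h2, hr] at h1
  have h5 : ((-1 : ℤ) ^ ρ x) * (2 - #{z | x < z ∧ z < y}) = 0 := by
    rw [← h1]; ring
  have h6 : ((-1 : ℤ) ^ ρ x) ≠ 0 := by positivity
  have h7 := (mul_eq_zero.1 h5).resolve_left h6
  omega

open Classical in
lemma two_le_lev [Fintype P] (h : IsGraded n ρ) (he : IsEulerian ρ) {r : ℕ} (h1 : 1 ≤ r)
    (h2 : r ≤ n) : 2 ≤ lev ρ r := by
  have hsm := h.strictMono
  -- choose an element of rank r - 1
  obtain ⟨u, hu⟩ : ∃ u : P, u < ⊤ ∧ ρ u = r - 1 := by
    rcases Nat.eq_zero_or_pos (r - 1) with h0 | h0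
    · exact ⟨⊥, h.bot_lt_top, by rw [h.bot, h0]⟩
    · obtain ⟨z, -, hz, hz'⟩ := h.exists_between h.bot_lt_top (r := r - 1)
        (by rw [h.bot]; exact h0) (by rw [h.top]; omega)
      exact ⟨z, hz, hz'⟩
  obtain ⟨w, huw, hw⟩ : ∃ w : P, u < w ∧ ρ w = r + 1 := by
    rcases Nat.lt_or_ge r n with h0 | h0
    · obtain ⟨z, hz, -, hz'⟩ := h.exists_between hu.1 (r := r + 1)
        (by omega) (by rw [h.top]; omega)
      exact ⟨z, hz, hz'⟩
    · exact ⟨⊤, hu.1, by rw [h.top]; omega⟩
  have := he.two h huw (by omega)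
  rw [lev_eq, ← this]
  apply Finset.card_le_card
  intro z hz
  simp only [mem_filter, mem_univ, true_and] at hz ⊢
  have h3 := hsm hz.1
  have h4 := hsm hz.2
  omega

open Classical in
lemma lev_one_le [Fintype P] (h : IsGraded n ρ) (he : IsEulerian ρ) (hn : 2 ≤ n) :
    lev ρ 1 ≤ lev ρ 2 := by
  have hsm := h.strictMono
  have key := Finset.sum_card_bipartiteAbove_eq_sum_card_bipartiteBelow
    (s := univ.filter fun x : P => ρ x = 1) (t := univ.filter fun x : P => ρ x = 2)
    (r := fun x y => x < y)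
  have h1 : ∀ x ∈ univ.filter (fun x : P => ρ x = 1),
      2 ≤ #(bipartiteAbove (fun x y => x < y) (univ.filter fun x : P => ρ x = 2) x) := by
    intro x hx
    simp only [mem_filter, mem_univ, true_and] at hx
    obtain ⟨w, hxw, hw⟩ : ∃ w : P, x < w ∧ ρ w = 3 := by
      have hx' : x < ⊤ := lt_top_iff_ne_top.2 (by rintro rfl; rw [h.top] at hx; omega)
      rcases Nat.lt_or_ge 2 n with h0 | h0
      · obtain ⟨z, hz, -, hz'⟩ := h.exists_between hx' (r := 3)
          (by omega) (by rw [h.top]; omega)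
        exact ⟨z, hz, hz'⟩
      · exact ⟨⊤, hx', by rw [h.top]; omega⟩
    have := he.two h hxw (by omega)
    rw [← this]
    apply Finset.card_le_card
    intro z hz
    simp only [mem_filter, mem_univ, true_and, bipartiteAbove] at hz ⊢
    have h3 := hsm hz.1
    have h4 := hsm hz.2
    exact ⟨by omega, hz.1⟩
  have h2 : ∀ y ∈ univ.filter (fun x : P => ρ x = 2),
      #(bipartiteBelow (fun x y => x < y) (univ.filter fun x : P => ρ x = 1) y) = 2 := by
    intro y hy
    simp only [mem_filter, mem_univ, true_and] at hy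
    have hy' : ⊥ < y := bot_lt_iff_ne_bot.2 (by rintro rfl; rw [h.bot] at hy; omega)
    have := he.two h hy' (by rw [h.bot, hy])
    rw [← this]
    congr 1
    ext z
    simp only [mem_filter, mem_univ, true_and, bipartiteBelow]
    constructor
    · rintro ⟨h3, h4⟩
      exact ⟨bot_lt_iff_ne_bot.2 (by rintro rfl; rw [h.bot] at h3; omega), h4⟩
    · rintro ⟨h3, h4⟩
      have h5 := hsm h3
      have h6 := hsm h4
      rw [h.bot] at h5
      exact ⟨by omega, h4⟩
  rw [Finset.sum_congr rfl h2] at key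
  have h3 := Finset.card_nsmul_le_sum _ _ _ h1
  rw [key] at h3
  rw [lev_eq, lev_eq]
  simp only [smul_eq_mul, sum_const] at h3
  omega

open Classical in
/-- Euler's relation for the level sizes. -/
lemma euler_rel [Fintype P] (h : IsGraded n ρ) (he : IsEulerian ρ) :
    ∑ i : Fin n, (-1 : ℤ) ^ (i : ℕ) * lev ρ (i + 1) = 1 - (-1) ^ n := by
  have hsm := h.strictMono
  have h1 := (isEulerian_iff.1 he) ⊥ ⊤ h.bot_lt_top
  rw [sum_Icc_eq h.bot_lt_top, h.bot, h.top] at h1
  have h2 : ∑ z with ⊥ < z ∧ z < ⊤, (-1 : ℤ) ^ (ρ z) =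
      ∑ i : Fin n, ∑ z with ρ z = i + 1, (-1 : ℤ) ^ (ρ z) := by
    rw [← Finset.sum_biUnion]
    · refine Finset.sum_congr ?_ (fun _ _ => rfl)
      ext z
      simp only [mem_filter, mem_univ, true_and, mem_biUnion]
      constructor
      · rintro ⟨h3, h4⟩
        have h5 := hsm h3
        have h6 := hsm h4
        rw [h.bot] at h5
        rw [h.top] at h6
        exact ⟨⟨ρ z - 1, by omega⟩, by simp only; omega⟩
      · rintro ⟨i, hi⟩
        have := i.2
        exact ⟨bot_lt_iff_ne_bot.2 (by rintro rfl; rw [h.bot] at hi; omega),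
          lt_top_iff_ne_top.2 (by rintro rfl; rw [h.top] at hi; omega)⟩
    · intro i _ j _ hij
      rw [Function.onFun, Finset.disjoint_left]
      intro z hz hz'
      simp only [mem_filter, mem_univ, true_and] at hz hz'
      apply hij
      ext
      omega
  have h3 : ∀ i : Fin n, ∑ z with ρ z = i + 1, (-1 : ℤ) ^ (ρ z) =
      -((-1 : ℤ) ^ (i : ℕ) * lev ρ (i + 1)) := by
    intro i
    rw [Finset.sum_congr rfl (g := fun _ => (-1 : ℤ) ^ ((i : ℕ) + 1)), lev_eq]
    · simp only [sum_const, nsmul_eq_mul]; ring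
    · intro z hz
      simp only [mem_filter, mem_univ, true_and] at hz
      rw [hz]
  rw [h2, Finset.sum_congr rfl (fun i _ => h3 i), Finset.sum_neg_distrib] at h1
  rw [pow_succ] at h1
  linarith

/-- The dual poset is graded. -/
lemma IsGraded.dual [Finite P] (h : IsGraded n ρ) :
    IsGraded (P := Pᵒᵈ) n (fun x => n + 1 - ρ (OrderDual.ofDual x)) := by
  refine ⟨?_, ?_, ?_⟩
  · change n + 1 - ρ ⊤ = 0
    rw [h.top]; omega
  · change n + 1 - ρ ⊥ = n + 1
    rw [h.bot]; omega
  · intro x y hxy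
    have h1 := h.covBy _ _ (ofDual_covBy_ofDual_iff.2 hxy)
    have h2 := h.le_top_rank (OrderDual.ofDual x)
    omega

lemma IsEulerian.dual [Finite P] (h : IsGraded n ρ) (he : IsEulerian ρ) :
    IsEulerian (P := Pᵒᵈ) (fun x => n + 1 - ρ (OrderDual.ofDual x)) := by
  classical
  have := Fintype.ofFinite P
  rw [isEulerian_iff] at he ⊢
  intro x y hxy
  have h1 := he (OrderDual.ofDual y) (OrderDual.ofDual x) hxy
  have h2 : ∑ z : Pᵒᵈ with x ≤ z ∧ z ≤ y, (-1 : ℤ) ^ (n + 1 - ρ (OrderDual.ofDual z)) =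
      ∑ z : P with OrderDual.ofDual y ≤ z ∧ z ≤ OrderDual.ofDual x,
        (-1 : ℤ) ^ (n + 1) * (-1 : ℤ) ^ (ρ z) := by
    refine Finset.sum_bij (fun z _ => OrderDual.ofDual z) ?_ ?_ ?_ ?_
    · intro z hz
      simp only [mem_filter, mem_univ, true_and] at hz ⊢
      exact ⟨hz.2, hz.1⟩
    · intro a _ b _ hab; exact hab
    · intro b hb
      simp only [mem_filter, mem_univ, true_and] at hb
      exact ⟨OrderDual.toDual b, by simpa using ⟨hb.2, hb.1⟩, rfl⟩
    · intro z _
      have h3 := h.le_top_rank (OrderDual.ofDual z)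
      rw [← pow_add]
      rw [show n + 1 + ρ (OrderDual.ofDual z) = (n + 1 - ρ (OrderDual.ofDual z)) +
        2 * ρ (OrderDual.ofDual z) by omega, pow_add, pow_mul]
      simp
  rw [h2, ← Finset.mul_sum, h1, mul_zero]

lemma lev_dual [Finite P] (h : IsGraded n ρ) {r : ℕ} (hr : r ≤ n + 1) :
    lev (P := Pᵒᵈ) (fun x => n + 1 - ρ (OrderDual.ofDual x)) r = lev ρ (n + 1 - r) := by
  unfold lev
  refine Nat.card_congr ⟨fun x => ⟨OrderDual.ofDual x.1, ?_⟩, fun x => ⟨OrderDual.toDual x.1, ?_⟩,
    fun x => rfl, fun x => rfl⟩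
  · have h1 : n + 1 - ρ (OrderDual.ofDual x.1) = r := x.2
    have h2 := h.le_top_rank (OrderDual.ofDual x.1)
    omega
  · have h1 : ρ x.1 = n + 1 - r := x.2
    change n + 1 - ρ x.1 = r
    omega

lemma lev_last_le [Finite P] (h : IsGraded n ρ) (he : IsEulerian ρ) (hn : 2 ≤ n) :
    lev ρ n ≤ lev ρ (n - 1) := by
  have := Fintype.ofFinite P
  have h1 := lev_one_le h.dual (he.dual h) hn
  rw [lev_dual h (by omega), lev_dual h (by omega)] at h1
  have e1 : n + 1 - 1 = n := by omega
  have e2 : n + 1 - 2 = n - 1 := by omega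
  rwa [e1, e2] at h1

end Pool.Agent.Helper738Eul
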